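import Pool.Agent.H259.RR.Fin

/-!
# Left inverses modulo compact operators
-/

set_option autoImplicit false
set_option linter.unusedSectionVars false

open MeasureTheory Filter Topology Set Metric Polynomial
open scoped NNReal ENNReal InnerProductSpace

namespace Pool.Agent.H259.RR

open Pool.Agent.W402.HI Pool.Agent.W706.HIR Pool.Agent.K4H63.RC Pool.Agent.K4H63.RD

variable {G : Type} [NormedAddCommGroup G] [NormedSpace ℂ G] [CompleteSpace G]

section prod

variable {N : Type} [NormedAddCommGroup N] [NormedSpace ℂ N] [CompleteSpace N]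

/-- the resolvent of `S ⊕ c` -/
theorem prod_res {S : G →L[ℂ] G} {c z : ℂ} (hz : z ∈ resolventSet ℂ S) (hzc : z ≠ c) :
    z ∈ resolventSet ℂ (S.prodMap (c • (1 : N →L[ℂ] N)) : G × N →L[ℂ] G × N) ∧
      ‖resolvent (S.prodMap (c • (1 : N →L[ℂ] N)) : G × N →L[ℂ] G × N) z‖ ≤
        ‖resolvent S z‖ + ‖z - c‖⁻¹ := by
  have h0 : z - c ≠ 0 := sub_ne_zero.2 hzc
  obtain ⟨s1, s2⟩ := res_apply hz
  set R : G × N →L[ℂ] G × N := (resolvent S z).prodMap ((z - c)⁻¹ • (1 : N →L[ℂ] N)) with hR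
  set S' : G × N →L[ℂ] G × N := S.prodMap (c • (1 : N →L[ℂ] N)) with hS'
  have h1 : (algebraMap ℂ (G × N →L[ℂ] G × N) z - S') * R = 1 := by
    rw [Algebra.algebraMap_eq_smul_one]
    refine ContinuousLinearMap.ext fun x => Prod.ext ?_ ?_
    · exact s1 x.1
    · change z • ((z - c)⁻¹ • x.2) - c • ((z - c)⁻¹ • x.2) = x.2
      rw [← sub_smul, smul_smul, mul_inv_cancel₀ h0, one_smul]
  have h2 : R * (algebraMap ℂ (G × N →L[ℂ] G × N) z - S') = 1 := by
    rw [Algebra.algebraMap_eq_smul_one]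
    refine ContinuousLinearMap.ext fun x => Prod.ext ?_ ?_
    · exact s2 x.1
    · change (z - c)⁻¹ • (z • x.2 - c • x.2) = x.2
      rw [← sub_smul, smul_smul, inv_mul_cancel₀ h0, one_smul]
  have hu : IsUnit (algebraMap ℂ (G × N →L[ℂ] G × N) z - S') := ⟨⟨_, _, h1, h2⟩, rfl⟩
  refine ⟨hu, ?_⟩
  have h3 : resolvent S' z = R := by
    unfold resolvent
    calc Ring.inverse (algebraMap ℂ (G × N →L[ℂ] G × N) z - S') =
          Ring.inverse (algebraMap ℂ (G × N →L[ℂ] G × N) z - S') *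
            ((algebraMap ℂ (G × N →L[ℂ] G × N) z - S') * R) := by rw [h1, mul_one]
      _ = R := by rw [← mul_assoc, Ring.inverse_mul_cancel _ hu, one_mul]
  rw [h3]
  refine ContinuousLinearMap.opNorm_le_bound _ (by positivity) fun x => ?_
  rw [Prod.norm_def]
  refine max_le ?_ ?_
  · change ‖resolvent S z x.1‖ ≤ _
    have h4 := (resolvent S z).le_opNorm x.1
    have h5 := norm_fst_le x
    have h6 : 0 ≤ ‖z - c‖⁻¹ * ‖x‖ := by positivity
    have h7 : ‖resolvent S z‖ * ‖x.1‖ ≤ ‖resolvent S z‖ * ‖x‖ := by gcongr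
    nlinarith
  · change ‖(z - c)⁻¹ • x.2‖ ≤ _
    rw [norm_smul, norm_inv]
    have h5 := norm_snd_le x
    have h6 : 0 ≤ ‖resolvent S z‖ * ‖x‖ := by positivity
    have h7 : ‖z - c‖⁻¹ * ‖x.2‖ ≤ ‖z - c‖⁻¹ * ‖x‖ := by gcongr
    nlinarith

end prod

variable {H : Type} [NormedAddCommGroup H] [InnerProductSpace ℂ H] [CompleteSpace H]

/-- `J` left invertible modulo compact operators becomes left invertible with a finite
dimensional summand -/
theorem ess_left {J : H →L[ℂ] G} {L : G →L[ℂ] H} (hL : IsCompactOperator (L.comp J - 1 : H →L[ℂ] H)) :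
    ∃ N : Submodule ℂ H, FiniteDimensional ℂ N ∧ ∃ (P : H →L[ℂ] N) (L' : G × N →L[ℂ] H),
      ∀ v, L' ((J.prod P) v) = v := by
  set B : H →L[ℂ] H := L.comp J with hB
  set K₀ : H →L[ℂ] H := B - 1 with hK₀
  set N : Submodule ℂ H := Module.End.eigenspace (K₀ : H →ₗ[ℂ] H) (-1) with hN
  have hNm : ∀ y, y ∈ N ↔ B y = 0 := fun y => by
    rw [hN, Module.End.mem_eigenspace_iff]
    change B y - y = (-1 : ℂ) • y ↔ _
    rw [neg_one_smul]
    constructor
    · intro h
      have : B y = B y - y + y := by abel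
      rw [this, h]; abel
    · intro h
      rw [h]; abel
  have hfin : FiniteDimensional ℂ N :=
    ContinuousLinearMap.finite_dimensional_eigenspace hL (-1) (by norm_num)
  refine ⟨N, hfin, ?_⟩
  have hNc : CompleteSpace N := FiniteDimensional.complete ℂ _
  set P := N.starProjection with hP
  set M : H →L[ℂ] H := star B * B + P with hM
  set K₁ : H →L[ℂ] H := M - 1 with hK₁
  have hPc : IsCompactOperator P := by
    have : ProperSpace N := FiniteDimensional.proper ℂ _
    have h1 : IsCompactOperator (N.subtypeL : N →L[ℂ] H) :=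
      isCompactOperator_of_locallyCompactSpace_rng _
    exact h1.comp_clm (N.orthogonalProjection)
  have hK₁c : IsCompactOperator K₁ := by
    have h1 : K₁ = star K₀ * B + K₀ + P := by
      rw [hK₁, hM, hK₀, star_sub, star_one, sub_mul, one_mul]
      abel
    rw [h1]
    have h2 : IsCompactOperator (star K₀ * B : H →L[ℂ] H) := (compact_adjoint hL).comp_clm B
    exact (h2.add hL).add hPc
  have hinj : ∀ x, M x = 0 → x = 0 := by
    intro x hx
    have h1 : ⟪x, M x⟫_ℂ = ((‖B x‖ ^ 2 + ‖P x‖ ^ 2 : ℝ) : ℂ) := by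
      have e1 : M x = star B (B x) + P x := rfl
      have e2 : ⟪x, star B (B x)⟫_ℂ = ((‖B x‖ ^ 2 : ℝ) : ℂ) := by
        rw [ContinuousLinearMap.star_eq_adjoint, ContinuousLinearMap.adjoint_inner_right,
          inner_self_eq_norm_sq_to_K]
        push_cast
        rfl
      have e3 : ⟪x, P x⟫_ℂ = ((‖P x‖ ^ 2 : ℝ) : ℂ) := by
        have h2 : P (P x) = P x := by
          have := N.isIdempotentElem_starProjection
          exact congrArg (fun L : H →L[ℂ] H => L x) this
        have h3 : ⟪P x, P x⟫_ℂ = ⟪x, P (P x)⟫_ℂ := N.starProjection_isSymmetric x (P x)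
        rw [h2] at h3
        rw [← h3, inner_self_eq_norm_sq_to_K]
        push_cast
        rfl
      rw [e1, inner_add_right, e2, e3]
      push_cast
      ring
    rw [hx, inner_zero_right] at h1
    have h2 : ‖B x‖ ^ 2 + ‖P x‖ ^ 2 = 0 := by exact_mod_cast h1.symm
    have h3 : ‖B x‖ = 0 := by nlinarith [sq_nonneg ‖B x‖, sq_nonneg ‖P x‖]
    have h4 : ‖P x‖ = 0 := by nlinarith [sq_nonneg ‖B x‖, sq_nonneg ‖P x‖]
    have h5 : x ∈ N := (hNm x).2 (norm_eq_zero.1 h3)
    have h6 : P x = x := Submodule.starProjection_eq_self_iff.2 h5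
    rw [← h6]
    exact norm_eq_zero.1 h4
  have hunit : IsUnit M := by
    by_contra hcon
    have h0 : (0 : ℂ) ∈ resolventSet ℂ (1 : H →L[ℂ] H) := by
      rw [spectrum.mem_resolventSet_iff, map_zero, zero_sub]
      exact isUnit_one.neg
    have h1 : (0 : ℂ) ∈ spectrum ℂ ((1 : H →L[ℂ] H) + K₁) := by
      rw [spectrum.mem_iff, map_zero, zero_sub]
      have : (1 : H →L[ℂ] H) + K₁ = M := by rw [hK₁]; abel
      rw [this, IsUnit.neg_iff]
      exact hcon
    obtain ⟨x, hx0, hx⟩ := eigen_of_spectrum hK₁c h0 h1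
    have h2 : (1 : H →L[ℂ] H) + K₁ = M := by rw [hK₁]; abel
    rw [h2, zero_smul] at hx
    exact hx0 (hinj x hx)
  obtain ⟨u, hu⟩ := hunit
  set Mi : H →L[ℂ] H := ((u⁻¹ : (H →L[ℂ] H)ˣ) : H →L[ℂ] H) with hMi
  have hMi' : ∀ x, Mi (M x) = x := fun x => by
    have h1 : Mi * M = 1 := by rw [hMi, ← hu, Units.inv_mul]
    exact congrArg (fun L : H →L[ℂ] H => L x) h1
  refine ⟨N.orthogonalProjection, Mi.comp (((star B).comp L).comp (ContinuousLinearMap.fst ℂ G N) +
    N.subtypeL.comp (ContinuousLinearMap.snd ℂ G N)), fun v => ?_⟩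
  exact hMi' v

/-- **the theorem**, `J` left invertible modulo compact operators -/
theorem final_ess {S : G →L[ℂ] G} {γ : ℝ → ℂ} {L₀ : NNReal} (hγ : LipschitzWith L₀ γ)
    (hS : ∀ z, z ∉ γ '' Set.Icc 0 1 → z ∈ resolventSet ℂ S)
    (hSg : ∃ (C : ℝ) (k : ℕ), ∀ z, z ∉ γ '' Set.Icc 0 1 → infDist z (γ '' Set.Icc 0 1) ≤ 1 →
      ‖resolvent S z‖ ≤ C / infDist z (γ '' Set.Icc 0 1) ^ k)
    {T : H →L[ℂ] H} (hred : Reductive T) {q : ℂ[X]} (hq : 0 < q.natDegree) {J : H →L[ℂ] G}
    {L : G →L[ℂ] H} (hL : IsCompactOperator (L.comp J - 1 : H →L[ℂ] H))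
    (hD : ∃ C ε : ℝ, 0 < ε ∧ ∀ m : ℕ, 1 ≤ m → ∃ F : H →L[ℂ] G,
      FiniteDimensional ℂ (LinearMap.range (F : H →ₗ[ℂ] G)) ∧
      Module.finrank ℂ (LinearMap.range (F : H →ₗ[ℂ] G)) ≤ m ∧
      ‖(S.comp J - J.comp (aeval T q)) - F‖ ≤ C / (m : ℝ) ^ ε) : IsStarNormal T := by
  obtain ⟨N, hN, P, L', hL'⟩ := ess_left hL
  have hNc : CompleteSpace N := FiniteDimensional.complete ℂ _
  set E : Set ℂ := γ '' Set.Icc 0 1 with hE
  have hcE : γ 0 ∈ E := ⟨0, by simp, rfl⟩
  set S' : G × N →L[ℂ] G × N := S.prodMap ((γ 0) • (1 : N →L[ℂ] N)) with hS'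
  have hEc : IsClosed E := (isCompact_Icc.image hγ.continuous).isClosed
  refine final (S := S') hγ (fun z hz => (prod_res (hS z hz) (fun h => hz (h ▸ hcE))).1) ?_
    hred hq (J := J.prod P) hL' ?_
  · obtain ⟨C, k, hC⟩ := hSg
    refine ⟨|C| + 1, k + 1, fun z hz hz1 => ?_⟩
    have hd : 0 < infDist z E := (hEc.notMem_iff_infDist_pos ⟨_, hcE⟩).1 hz
    refine (prod_res (hS z hz) (fun h => hz (h ▸ hcE))).2.trans ?_
    have h1 : ‖resolvent S z‖ ≤ |C| / infDist z E ^ (k + 1) := by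
      refine (hC z hz hz1).trans ?_
      calc C / infDist z E ^ k ≤ |C| / infDist z E ^ k := by
            gcongr
            exact le_abs_self C
        _ ≤ |C| / infDist z E ^ (k + 1) := by
            apply div_le_div_of_nonneg_left (abs_nonneg _) (by positivity)
            exact pow_le_pow_of_le_one hd.le hz1 (by omega)
    have h2 : ‖z - γ 0‖⁻¹ ≤ 1 / infDist z E ^ (k + 1) := by
      have h3 : infDist z E ≤ ‖z - γ 0‖ := by
        rw [← dist_eq_norm]
        exact infDist_le_dist_of_mem hcE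
      have h4 : infDist z E ^ (k + 1) ≤ infDist z E := by
        calc infDist z E ^ (k + 1) ≤ infDist z E ^ 1 := pow_le_pow_of_le_one hd.le hz1 (by omega)
          _ = _ := pow_one _
      rw [one_div]
      exact inv_anti₀ (by positivity) (h4.trans h3)
    rw [add_div]
    exact add_le_add h1 h2
  · obtain ⟨C, ε, hε, hF⟩ := hD
    set n₀ := Module.finrank ℂ N with hn₀
    set A := aeval T q with hA
    set D₁ : H →L[ℂ] G := S.comp J - J.comp A with hD₁
    set D₂ : H →L[ℂ] N := (γ 0) • P - P.comp A with hD₂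
    have hDD : (S'.comp (J.prod P) - (J.prod P).comp A : H →L[ℂ] G × N) = D₁.prod D₂ := rfl
    rw [hDD]
    set M : ℝ := max (|C| * 2 ^ ε) (‖(D₁.prod D₂ : H →L[ℂ] G × N)‖ * (2 * n₀ + 2) ^ ε) with hM
    refine ⟨M, ε, hε, fun m hm => ?_⟩
    have hm0 : (0 : ℝ) < m := by exact_mod_cast hm
    by_cases hmn : 2 * n₀ + 1 ≤ m
    · obtain ⟨F, hF1, hF2, hF3⟩ := hF (m - n₀) (by omega)
      set W₁ : Submodule ℂ (G × N) := (LinearMap.range (F : H →ₗ[ℂ] G)).map (LinearMap.inl ℂ G N)
        with hW₁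
      set W₂ : Submodule ℂ (G × N) := (⊤ : Submodule ℂ N).map (LinearMap.inr ℂ G N) with hW₂
      have hle : LinearMap.range ((F.prod D₂ : H →L[ℂ] G × N) : H →ₗ[ℂ] G × N) ≤ W₁ ⊔ W₂ := by
        rintro _ ⟨x, rfl⟩
        refine Submodule.mem_sup.2 ⟨(F x, 0), ⟨F x, ⟨x, rfl⟩, rfl⟩, (0, D₂ x),
          ⟨D₂ x, trivial, rfl⟩, ?_⟩
        refine Prod.ext ?_ ?_
        · exact add_zero (F x)
        · exact zero_add (D₂ x)
      refine ⟨F.prod D₂, Submodule.finiteDimensional_of_le hle, ?_, ?_⟩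
      · refine (Submodule.finrank_mono hle).trans
          ((Submodule.finrank_add_le_finrank_add_finrank W₁ W₂).trans ?_)
        have h1 : Module.finrank ℂ W₁ ≤ Module.finrank ℂ (LinearMap.range (F : H →ₗ[ℂ] G)) :=
          Submodule.finrank_map_le _ _
        have h2 : Module.finrank ℂ W₂ ≤ Module.finrank ℂ (⊤ : Submodule ℂ N) :=
          Submodule.finrank_map_le _ _
        rw [finrank_top] at h2
        omega
      · have h1 : (D₁.prod D₂ - F.prod D₂ : H →L[ℂ] G × N) =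
            (ContinuousLinearMap.inl ℂ G N).comp (D₁ - F) := by
          refine ContinuousLinearMap.ext fun x => Prod.ext rfl ?_
          change D₂ x - D₂ x = 0
          rw [sub_self]
        rw [h1]
        have h2 : ‖(ContinuousLinearMap.inl ℂ G N).comp (D₁ - F)‖ ≤ ‖D₁ - F‖ := by
          refine ContinuousLinearMap.opNorm_le_bound _ (norm_nonneg _) fun x => ?_
          change ‖((D₁ - F) x, (0 : N))‖ ≤ _
          rw [Prod.norm_def, norm_zero, max_eq_left (norm_nonneg _)]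
          exact (D₁ - F).le_opNorm x
        refine h2.trans (hF3.trans ?_)
        have h3 : ((m - n₀ : ℕ) : ℝ) = (m : ℝ) - n₀ := by
          rw [Nat.cast_sub (by omega)]
        have h4 : (m : ℝ) / 2 ≤ ((m - n₀ : ℕ) : ℝ) := by
          rw [h3]
          have : (2 * n₀ + 1 : ℝ) ≤ m := by exact_mod_cast hmn
          linarith
        calc C / ((m - n₀ : ℕ) : ℝ) ^ ε ≤ |C| / ((m - n₀ : ℕ) : ℝ) ^ ε := by
              gcongr
              exact le_abs_self C
          _ ≤ |C| / ((m : ℝ) / 2) ^ ε := by gcongr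
          _ = |C| * 2 ^ ε / (m : ℝ) ^ ε := by
              rw [Real.div_rpow hm0.le (by norm_num)]
              field_simp
          _ ≤ M / (m : ℝ) ^ ε := by
              gcongr
              exact le_max_left _ _
    · refine ⟨0, ?_, ?_, ?_⟩
      · rw [ContinuousLinearMap.toLinearMap_zero, LinearMap.range_zero]
        infer_instance
      · rw [ContinuousLinearMap.toLinearMap_zero, LinearMap.range_zero, finrank_bot]
        omega
      · rw [sub_zero, le_div_iff₀ (by positivity)]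
        refine le_trans ?_ (le_max_right _ _)
        gcongr
        have : (m : ℝ) ≤ 2 * n₀ + 1 := by
          have h5 : m ≤ 2 * n₀ + 1 := by omega
          exact_mod_cast h5
        linarith

end Pool.Agent.H259.RR
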