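import Pool.Agent.H259.HA.Mat

/-!
# Matrices of commuting normal operators: growth of the resolvent
-/

set_option autoImplicit false
set_option linter.unusedSectionVars false

open scoped InnerProductSpace ComplexConjugate NNReal ENNReal
open Metric Polynomial

namespace Pool.Agent.H259.RR

open Pool.Agent.H259.RH Pool.Agent.H259.HA

section abs

variable {H : Type} [NormedAddCommGroup H] [InnerProductSpace ℂ H] [CompleteSpace H]
variable {ι : Type} [Fintype ι] [DecidableEq ι]
variable {R : Type} [NormedCommRing R] [NormedAlgebra ℂ R] [CompleteSpace R]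

/-- the determinant -/
noncomputable def dd (B : Matrix ι ι R) (z : ℂ) : R :=
  (Matrix.scalar ι (algebraMap ℂ R z) - B).det

theorem dd_map (B : Matrix ι ι R) (z : ℂ) (f : R →ₐ[ℂ] ℂ) :
    f (dd B z) = (B.map f).charpoly.eval z := by
  rw [Matrix.eval_charpoly]
  unfold dd
  have h1 := RingHom.map_det (f : R →+* ℂ) (Matrix.scalar ι (algebraMap ℂ R z) - B)
  have h2 : (f : R →+* ℂ).mapMatrix (Matrix.scalar ι (algebraMap ℂ R z) - B) =
      Matrix.scalar ι z - B.map f := by
    ext i j
    rw [RingHom.mapMatrix_apply, Matrix.map_apply, Matrix.sub_apply, Matrix.sub_apply,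
      Matrix.map_apply, map_sub]
    congr 1
    by_cases hij : i = j
    · subst hij
      simp [Matrix.scalar_apply]
    · simp [Matrix.scalar_apply, Matrix.diagonal_apply_ne _ hij]
  rw [h2] at h1
  exact h1

theorem exists_char {a : R} (ha : ¬ IsUnit a) : ∃ f : R →ₐ[ℂ] ℂ, f a = 0 := by
  obtain ⟨f, hf⟩ := WeakDual.CharacterSpace.exists_apply_eq_zero ha
  exact ⟨WeakDual.CharacterSpace.toAlgHom f, hf⟩

variable (φ : R →ₐ[ℂ] (H →L[ℂ] H))

/-- lower bounds for the determinant -/
theorem dd_lower {B : Matrix ι ι R}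
    (hu : ∀ z, z ∈ resolventSet ℂ (mop (B.map φ)) → IsUnit (dd B z)) {z : ℂ} {δ : ℝ} (hδ : 0 ≤ δ)
    (hz : ∀ r ∈ spectrum ℂ (mop (B.map φ)), δ ≤ ‖z - r‖) (f : R →ₐ[ℂ] ℂ) :
    δ ^ Fintype.card ι ≤ ‖f (dd B z)‖ := by
  rw [dd_map]
  refine charpoly_lower _ _ hδ fun r hr => hz r ?_
  intro hcon
  have h1 := (hu r hcon).map f
  have h2 : f (dd B r) = 0 := by
    rw [dd_map]
    exact hr
  rw [h2] at h1
  exact not_isUnit_zero h1

/-- **growth** -/
theorem growth_comm (hφ : Continuous φ) (hn : ∀ a, IsStarNormal (φ a)) (B : Matrix ι ι R)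
    (hu : ∀ z, z ∈ resolventSet ℂ (mop (B.map φ)) → IsUnit (dd B z))
    {E : Set ℂ} (hE : IsCompact E) (hEne : E.Nonempty)
    (hs : spectrum ℂ (mop (B.map φ)) ⊆ E) :
    ∃ (C : ℝ) (k : ℕ), ∀ z, z ∉ E → infDist z E ≤ 1 →
      ‖resolvent (mop (B.map φ)) z‖ ≤ C / infDist z E ^ k := by
  obtain ⟨r, hr⟩ := hE.isBounded.exists_norm_le
  -- the adjugate is bounded
  have hadj : Continuous fun z : ℂ => ∑ i, ∑ j,
      ‖φ ((Matrix.scalar ι (algebraMap ℂ R z) - B).adjugate i j)‖ := by
    have h1 : Continuous fun z : ℂ => (Matrix.scalar ι (algebraMap ℂ R z) - B) := by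
      refine Continuous.sub ?_ continuous_const
      refine continuous_matrix fun i j => ?_
      by_cases hij : i = j
      · subst hij
        simp only [Matrix.scalar_apply, Matrix.diagonal_apply_eq]
        exact continuous_algebraMap ℂ R
      · simp only [Matrix.scalar_apply, Matrix.diagonal_apply_ne _ hij]
        exact continuous_const
    have h2 := h1.matrix_adjugate
    refine continuous_finsetSum _ fun i _ => continuous_finsetSum _ fun j _ => ?_
    exact (hφ.comp (h2.matrix_elem i j)).norm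
  obtain ⟨M, hM⟩ := (isCompact_closedBall (0 : ℂ) (r + 1)).exists_bound_of_continuousOn
    hadj.continuousOn
  refine ⟨M * Fintype.card ι, Fintype.card ι, fun z hz hz1 => ?_⟩
  have hd : 0 < infDist z E := (hE.isClosed.notMem_iff_infDist_pos hEne).1 hz
  set δ := infDist z E with hδ
  have hzs : ∀ w ∈ spectrum ℂ (mop (B.map φ)), δ ≤ ‖z - w‖ := by
    intro w hw
    rw [← dist_eq_norm]
    exact infDist_le_dist_of_mem (hs hw)
  have hzr : z ∈ resolventSet ℂ (mop (B.map φ)) := by
    by_contra h
    exact hz (hs h)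
  obtain ⟨u, hu'⟩ := hu z hzr
  set a : R := ((u⁻¹ : Rˣ) : R) with ha
  have ha1 : dd B z * a = 1 := by rw [← hu', ha, Units.mul_inv]
  have hlow := dd_lower φ hu hd.le hzs
  -- the norm of the inverse
  have hna : ‖φ a‖ ≤ 1 / δ ^ Fintype.card ι := by
    have h1 : spectralRadius ℂ (φ a) ≤ ENNReal.ofReal (1 / δ ^ Fintype.card ι) := by
      unfold spectralRadius
      refine iSup₂_le fun μ hμ => ?_
      have h2 : ¬ IsUnit (algebraMap ℂ R μ - a) := by
        intro h3
        apply hμ
        have h4 := h3.map φ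
        rw [map_sub, AlgHom.commutes] at h4
        exact h4
      obtain ⟨f, hf⟩ := exists_char h2
      rw [map_sub, AlgHom.commutes, sub_eq_zero] at hf
      have hf' : μ = f a := hf
      have h3 : f (dd B z) * μ = 1 := by rw [hf', ← map_mul, ha1, map_one]
      have h4 : ‖f (dd B z)‖ * ‖μ‖ = 1 := by rw [← norm_mul, h3, norm_one]
      have h5 := hlow f
      have h6 : ‖μ‖ ≤ 1 / δ ^ Fintype.card ι := by
        rw [le_div_iff₀ (by positivity)]
        calc ‖μ‖ * δ ^ Fintype.card ι ≤ ‖μ‖ * ‖f (dd B z)‖ := by gcongr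
          _ = 1 := by rw [mul_comm, h4]
      rw [← enorm_eq_nnnorm, ← ofReal_norm_eq_enorm]
      exact ENNReal.ofReal_le_ofReal h6
    have hnn := hn a
    rw [IsStarNormal.spectralRadius_eq_nnnorm, ← enorm_eq_nnnorm, ← ofReal_norm_eq_enorm] at h1
    exact (ENNReal.ofReal_le_ofReal_iff (by positivity)).1 h1
  -- the inverse
  set Mz : Matrix ι ι R := Matrix.scalar ι (algebraMap ℂ R z) - B with hMz
  have hmapmul : ∀ P Q : Matrix ι ι R, mop ((P * Q).map φ) = mop (P.map φ) * mop (Q.map φ) := by
    intro P Q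
    rw [← mop_mul, Matrix.map_mul]
  have e0 : algebraMap ℂ (GG H ι →L[ℂ] GG H ι) z - mop (B.map φ) = mop (Mz.map φ) := by
    have h1 : Mz.map φ = (algebraMap ℂ (Matrix ι ι (H →L[ℂ] H)) z) - B.map φ := by
      ext i j : 2
      rw [hMz, Matrix.map_apply, Matrix.sub_apply, Matrix.sub_apply, Matrix.map_apply, map_sub,
        Matrix.algebraMap_eq_diagonal]
      congr 1
      by_cases hij : i = j
      · subst hij
        simp only [Matrix.scalar_apply, Matrix.diagonal_apply_eq]
        rw [AlgHom.commutes]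
        rfl
      · simp only [Matrix.scalar_apply, Matrix.diagonal_apply_ne _ hij, map_zero]
    rw [h1]
    have h2 := map_sub (mopHom (H := H) (ι := ι)) (algebraMap ℂ (Matrix ι ι (H →L[ℂ] H)) z)
      (B.map φ)
    rw [AlgHom.commutes] at h2
    exact h2.symm
  have e1 : mop (Mz.map φ) * (mop (Mz.adjugate.map φ) * dg fun _ => φ a) = 1 := by
    rw [← mul_assoc, ← hmapmul, Matrix.mul_adjugate]
    have h1 : ((Mz.det • (1 : Matrix ι ι R)).map φ) = Matrix.diagonal fun _ => φ Mz.det := by
      ext i j : 2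
      by_cases hij : i = j
      · subst hij
        simp
      · simp [Matrix.diagonal_apply_ne _ hij, Matrix.one_apply_ne hij]
    rw [h1, mop_diag]
    change dgHom _ * dgHom _ = _
    rw [← map_mul, ← map_one (dgHom (H := H) (ι := ι))]
    congr 1
    funext i
    change φ (dd B z) * φ a = 1
    rw [← map_mul, ha1, map_one]
  have hunit : IsUnit (mop (Mz.map φ)) := by
    rw [← e0]
    exact hzr
  have h6 : resolvent (mop (B.map φ)) z = mop (Mz.adjugate.map φ) * dg fun _ => φ a := by
    rw [resolvent, e0]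
    have h7 := Ring.inverse_mul_cancel _ hunit
    calc Ring.inverse (mop (Mz.map φ)) = Ring.inverse (mop (Mz.map φ)) * (mop (Mz.map φ) *
          (mop (Mz.adjugate.map φ) * dg fun _ => φ a)) := by rw [e1, mul_one]
      _ = _ := by rw [← mul_assoc, h7, one_mul]
  rw [h6]
  have hzn : ‖z‖ ≤ r + 1 := by
    obtain ⟨y, hy, hyd⟩ := hE.exists_infDist_eq_dist hEne z
    have h8 : ‖z - y‖ ≤ 1 := by
      rw [← dist_eq_norm, ← hyd]
      exact hz1
    have h9 := norm_add_le (z - y) y
    rw [sub_add_cancel] at h9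
    linarith [hr y hy]
  have h8 : ‖(dg fun _ : ι => φ a)‖ ≤ Fintype.card ι * ‖φ a‖ := by
    rw [← mop_diag]
    refine (norm_mop _).trans ?_
    have h9 : ∀ i : ι, ∑ j, ‖(Matrix.diagonal fun _ : ι => φ a) i j‖ = ‖φ a‖ := by
      intro i
      rw [Finset.sum_eq_single i]
      · rw [Matrix.diagonal_apply_eq]
      · intro j _ hj
        rw [Matrix.diagonal_apply_ne _ (Ne.symm hj), norm_zero]
      · simp
    simp_rw [h9]
    simp
  have h10 : ‖mop (Mz.adjugate.map φ)‖ ≤ M := by
    refine (norm_mop _).trans ?_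
    have h11 := hM z (by rw [mem_closedBall_zero_iff]; exact hzn)
    exact (le_abs_self _).trans h11
  have hM0 : 0 ≤ M := (norm_nonneg _).trans h10
  calc ‖mop (Mz.adjugate.map φ) * dg fun _ => φ a‖
      ≤ ‖mop (Mz.adjugate.map φ)‖ * ‖(dg fun _ : ι => φ a)‖ := norm_mul_le _ _
    _ ≤ M * (Fintype.card ι * (1 / δ ^ Fintype.card ι)) := by
        refine mul_le_mul h10 (h8.trans ?_) (norm_nonneg _) hM0
        gcongr
    _ = _ := by ring

end abs

section conc

variable {H : Type} [NormedAddCommGroup H] [InnerProductSpace ℂ H] [CompleteSpace H]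
variable {ι : Type} [Fintype ι] [DecidableEq ι]

omit [CompleteSpace H] in
/-- entries of operators on the sum -/
theorem mop_surj (U : GG H ι →L[ℂ] GG H ι) : ∃ M : Matrix ι ι (H →L[ℂ] H), mop M = U ∧
    ∀ c : H →L[ℂ] H, (dg fun _ : ι => c) * U = U * (dg fun _ : ι => c) → ∀ i j, c * M i j = M i j * c := by
  let pr : ι → (GG H ι →L[ℂ] H) := fun i =>
    (ContinuousLinearMap.proj i).comp (ee H ι : GG H ι →L[ℂ] (ι → H))
  have hpr : ∀ i x, pr i x = x i := fun i x => rfl
  have hinc : ∀ j (x : H) i, inc (ι := ι) j x i = if i = j then x else 0 := by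
    intro j x i
    unfold inc
    rw [stack_apply]
    by_cases hij : i = j
    · rw [if_pos hij, if_pos hij]; rfl
    · rw [if_neg hij, if_neg hij]; rfl
  have hsum : ∀ x : GG H ι, x = ∑ j, inc j (x j) := by
    intro x
    ext i
    have h1 : (∑ j, inc j (x j) : GG H ι) i = ∑ j, (inc j (x j) : GG H ι) i := by
      rw [← hpr i, map_sum]
      rfl
    rw [h1]
    simp_rw [hinc]
    rw [Finset.sum_ite_eq Finset.univ i, if_pos (Finset.mem_univ i)]
  refine ⟨(Matrix.of fun i j => (pr i).comp (U.comp (inc j)) : Matrix ι ι (H →L[ℂ] H)), ?_, ?_⟩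
  · refine mop_ext fun x i => ?_
    rw [mop_apply]
    change ∑ j, pr i (U (inc j (x j))) = pr i (U x)
    conv_rhs => rw [hsum x]
    rw [map_sum, map_sum]
  · intro c hc i j
    ext x
    change c (U (inc j x) i) = U (inc j (c x)) i
    have h1 : inc j (c x) = (dg fun _ : ι => c) (inc j x) := by
      ext l
      rw [dg_apply, hinc, hinc]
      by_cases hlj : l = j
      · rw [if_pos hlj, if_pos hlj]
      · rw [if_neg hlj, if_neg hlj, map_zero]
    rw [h1]
    have h2 := congrArg (fun L : GG H ι →L[ℂ] GG H ι => L (inc j x) i) hc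
    exact h2

/-- **resolvents of matrices of commuting normal operators** -/
theorem growth_nn (N : Matrix ι ι (H →L[ℂ] H)) (hc : ∀ i j k l, Commute (N i j) (N k l))
    (hc' : ∀ i j k l, Commute (N i j) (star (N k l)))
    {E : Set ℂ} (hE : IsCompact E) (hEne : E.Nonempty) (hs : spectrum ℂ (mop N) ⊆ E) :
    ∃ (C : ℝ) (k : ℕ), ∀ z, z ∉ E → infDist z E ≤ 1 →
      ‖resolvent (mop N) z‖ ≤ C / infDist z E ^ k := by
  set s : Set (H →L[ℂ] H) := {a | ∃ i j, a = N i j ∨ a = star (N i j)} with hsd
  have hscomm : ∀ x ∈ s, ∀ y ∈ s, x * y = y * x := by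
    rintro x ⟨i, j, rfl | rfl⟩ y ⟨k, l, rfl | rfl⟩
    · exact hc i j k l
    · exact hc' i j k l
    · exact (hc' k l i j).symm
    · exact (hc i j k l).star_star
  have hsstar : ∀ x ∈ s, star x ∈ s := by
    rintro x ⟨i, j, rfl | rfl⟩
    · exact ⟨i, j, Or.inr rfl⟩
    · exact ⟨i, j, Or.inl (star_star _)⟩
  set 𝓡 : Subalgebra ℂ (H →L[ℂ] H) := Subalgebra.centralizer ℂ (Set.centralizer s) with hR
  have hmem : ∀ a, a ∈ 𝓡 ↔ ∀ c ∈ Set.centralizer s, c * a = a * c := fun a => by
    rw [hR, Subalgebra.mem_centralizer_iff]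
  have hcomm : ∀ a b : 𝓡, a * b = b * a := by
    rintro ⟨a, ha⟩ ⟨b, hb⟩
    exact Subtype.ext (Set.centralizer_centralizer_comm_of_comm hscomm a ha b hb)
  have hclosed : IsClosed (𝓡 : Set (H →L[ℂ] H)) := Set.isClosed_centralizer _
  have hstar : ∀ a ∈ 𝓡, star a ∈ 𝓡 := by
    intro a ha
    rw [hmem] at ha ⊢
    intro c hcs
    have h1 : star c ∈ Set.centralizer s := by
      intro x hx
      have h2 := hcs (star x) (hsstar x hx)
      have h3 := congrArg star h2
      rw [star_mul, star_mul, star_star] at h3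
      exact h3.symm
    have h4 := congrArg star (ha _ h1)
    rw [star_mul, star_mul, star_star] at h4
    exact h4.symm
  letI : NormedCommRing 𝓡 := { (inferInstance : NormedRing 𝓡) with mul_comm := hcomm }
  haveI : CompleteSpace 𝓡 := hclosed.completeSpace_coe
  have hN : ∀ i j, N i j ∈ 𝓡 := by
    intro i j
    rw [hmem]
    intro c hcs
    exact (hcs (N i j) ⟨i, j, Or.inl rfl⟩).symm
  set B : Matrix ι ι 𝓡 := fun i j => ⟨N i j, hN i j⟩ with hB
  set φ : 𝓡 →ₐ[ℂ] (H →L[ℂ] H) := 𝓡.val with hφ
  have hBN : B.map φ = N := by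
    ext i j : 2
    rfl
  have hfin := growth_comm (R := 𝓡) φ continuous_subtype_val ?_ B ?_ hE hEne (by rw [hBN]; exact hs)
  · rw [hBN] at hfin
    exact hfin
  · intro a
    refine ⟨?_⟩
    have h1 := congrArg Subtype.val (hcomm ⟨star (a : H →L[ℂ] H), hstar _ a.2⟩ a)
    exact h1
  · intro z hz
    rw [hBN] at hz
    obtain ⟨⟨x, y, hxy, hyx⟩, hx⟩ := hz
    have hx' : x = algebraMap ℂ (GG H ι →L[ℂ] GG H ι) z - mop N := hx
    obtain ⟨M, hM1, hM2⟩ := mop_surj y
    have hMR : ∀ i j, M i j ∈ 𝓡 := by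
      intro i j
      rw [hmem]
      intro c hcs
      refine hM2 c ?_ i j
      -- the diagonal operator commutes with the inverse
      have h1 : (dg fun _ : ι => c) * x = x * (dg fun _ : ι => c) := by
        rw [hx', mul_sub, sub_mul, Algebra.commutes]
        congr 1
        rw [← mop_diag, ← mop_mul, ← mop_mul]
        congr 1
        refine Matrix.ext fun i j => ?_
        rw [Matrix.diagonal_mul, Matrix.mul_diagonal]
        exact (hcs (N i j) ⟨i, j, Or.inl rfl⟩).symm
      calc (dg fun _ : ι => c) * y = (y * x) * (dg fun _ : ι => c) * y := by rw [hyx, one_mul]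
        _ = y * (x * (dg fun _ : ι => c)) * y := by rw [mul_assoc y]
        _ = y * ((dg fun _ : ι => c) * x) * y := by rw [h1]
        _ = y * (dg fun _ : ι => c) * (x * y) := by simp only [mul_assoc]
        _ = y * (dg fun _ : ι => c) := by rw [hxy, mul_one]
    set M' : Matrix ι ι 𝓡 := fun i j => ⟨M i j, hMR i j⟩ with hM'
    have hMM : M'.map φ = M := by
      ext i j : 2
      rfl
    have hkey : (Matrix.scalar ι (algebraMap ℂ 𝓡 z) - B) * M' = 1 := by
      have h1 : mop (((Matrix.scalar ι (algebraMap ℂ 𝓡 z) - B) * M').map φ) = 1 := by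
        rw [Matrix.map_mul, mop_mul, hMM, hM1, ← hxy, hx']
        congr 1
        have h2 : (Matrix.scalar ι (algebraMap ℂ 𝓡 z) - B).map φ =
            (algebraMap ℂ (Matrix ι ι (H →L[ℂ] H)) z) - N := by
          refine Matrix.ext fun i j => ?_
          rw [Matrix.map_apply, Matrix.sub_apply, Matrix.sub_apply, map_sub,
            Matrix.algebraMap_eq_diagonal]
          congr 1
          by_cases hij : i = j
          · subst hij
            simp only [Matrix.scalar_apply, Matrix.diagonal_apply_eq]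
            rw [AlgHom.commutes]
            rfl
          · simp only [Matrix.scalar_apply, Matrix.diagonal_apply_ne _ hij, map_zero]
        rw [h2]
        have h3 := map_sub (mopHom (H := H) (ι := ι)) (algebraMap ℂ (Matrix ι ι (H →L[ℂ] H)) z) N
        rw [AlgHom.commutes] at h3
        exact h3
      have hinj : ∀ P Q : Matrix ι ι (H →L[ℂ] H), mop P = mop Q → P = Q := by
        intro P Q hPQ
        have hinc : ∀ j (x : H) i, inc (ι := ι) j x i = if i = j then x else 0 := by
          intro j x i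
          unfold inc
          rw [stack_apply]
          by_cases hij : i = j
          · rw [if_pos hij, if_pos hij]; rfl
          · rw [if_neg hij, if_neg hij]; rfl
        ext i j x
        have h2 := congrArg (fun L : GG H ι →L[ℂ] GG H ι => L (inc j x) i) hPQ
        simp only [mop_apply, hinc] at h2
        have h3 : ∀ P : Matrix ι ι (H →L[ℂ] H), ∑ l, P i l (if l = j then x else 0) = P i j x := by
          intro P
          rw [Finset.sum_eq_single j]
          · rw [if_pos rfl]
          · intro l _ hl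
            rw [if_neg hl, map_zero]
          · simp
        rw [h3, h3] at h2
        exact h2
      have h4 : ((Matrix.scalar ι (algebraMap ℂ 𝓡 z) - B) * M').map φ = 1 := by
        apply hinj
        rw [h1]
        exact (map_one (mopHom (H := H) (ι := ι))).symm
      ext i j : 1
      have h5 := congrFun (congrFun h4 i) j
      rw [Matrix.map_apply] at h5
      apply Subtype.ext
      by_cases hij : i = j
      · subst hij
        rw [Matrix.one_apply_eq] at h5 ⊢
        exact h5
      · rw [Matrix.one_apply_ne hij] at h5 ⊢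
        exact h5
    have hdet := congrArg Matrix.det hkey
    rw [Matrix.det_mul, Matrix.det_one] at hdet
    exact IsUnit.of_mul_eq_one _ hdet

end conc

end Pool.Agent.H259.RR
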