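import Pool.Agent.H259.RR.Pow
import Pool.Graph.R_pool_sql_team_seeded_c8625f6e.K4H63.RD.BA

/-!
# Essential resolvents of polynomial growth
-/

set_option autoImplicit false
set_option linter.unusedSectionVars false

open MeasureTheory Filter Topology Set Metric Polynomial
open scoped NNReal ENNReal InnerProductSpace

namespace Pool.Agent.H259.RR

open Pool.Agent.W402.HI Pool.Agent.W706.HIR Pool.Agent.K4H63.RC Pool.Agent.K4H63.RD

/-- the quotient by the compact operators -/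
theorem exists_ess (V : Type) [NormedAddCommGroup V] [NormedSpace ℂ V] [CompleteSpace V] :
    ∃ (F : Type) (_ : NormedAddCommGroup F) (_ : NormedSpace ℂ F) (_ : CompleteSpace F)
      (Φ : (V →L[ℂ] V) →L[ℂ] F), (∀ x, Φ x = 0 ↔ IsCompactOperator x) ∧ ∀ x, ‖Φ x‖ ≤ ‖x‖ := by
  let S : Submodule ℂ (V →L[ℂ] V) :=
    { carrier := {f | IsCompactOperator f}
      add_mem' := fun {f g} hf hg => IsCompactOperator.add hf hg
      zero_mem' := isCompactOperator_zero
      smul_mem' := fun c f hf => IsCompactOperator.smul hf c }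
  have hS : IsClosed (S : Set (V →L[ℂ] V)) := isClosed_setOfPred_isCompactOperator
  have hn : ∀ x : V →L[ℂ] V, ‖(Submodule.Quotient.mk x : (V →L[ℂ] V) ⧸ S)‖ ≤ ‖x‖ :=
    fun x => Submodule.Quotient.norm_mk_le S x
  refine ⟨(V →L[ℂ] V) ⧸ S, inferInstance, inferInstance, inferInstance,
    LinearMap.mkContinuous S.mkQ 1 (fun x => by rw [one_mul]; exact hn x), ?_, ?_⟩
  · intro x
    change (Submodule.Quotient.mk x : (V →L[ℂ] V) ⧸ S) = 0 ↔ _
    rw [Submodule.Quotient.mk_eq_zero]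
    rfl
  · intro x
    exact hn x

section

variable {G : Type} [NormedAddCommGroup G] [NormedSpace ℂ G] [CompleteSpace G]
variable {V : Type} [NormedAddCommGroup V] [NormedSpace ℂ V] [CompleteSpace V]

/-- resolvents of operators related by `j` -/
theorem res_diff {S : G →L[ℂ] G} {A : V →L[ℂ] V} {j : V →L[ℂ] G} {l : G →L[ℂ] V}
    (hl : ∀ v, l (j v) = v) {z : ℂ} (hzS : z ∈ resolventSet ℂ S) (hzA : z ∈ resolventSet ℂ A) :
    l.comp ((resolvent S z).comp j) =
      resolvent A z + (l.comp (resolvent S z)).comp ((S.comp j - j.comp A).comp (resolvent A z)) := by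
  obtain ⟨s1, s2⟩ := res_apply hzS
  obtain ⟨a1, a2⟩ := res_apply hzA
  ext x
  set y := resolvent A z x with hy
  have e1 : x = z • y - A y := (a1 x).symm
  have e2 : j x = (z • j y - S (j y)) + (S (j y) - j (A y)) := by
    rw [e1, map_sub, map_smul]; abel
  change l (resolvent S z (j x)) = y + l (resolvent S z (S (j y) - j (A y)))
  rw [e2, map_add, s2, map_add, hl]

/-- the essential resolvent -/
theorem ess_single {S : G →L[ℂ] G} {A : V →L[ℂ] V} {j : V →L[ℂ] G} {l : G →L[ℂ] V}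
    (hl : ∀ v, l (j v) = v) (hD : IsCompactOperator (S.comp j - j.comp A : V →L[ℂ] G))
    {E : Set ℂ} {C₀ : ℝ} (hE : Thin E C₀) (hS : ∀ z, z ∉ E → z ∈ resolventSet ℂ S)
    (hSg : ∃ (C : ℝ) (k : ℕ), ∀ z, z ∉ E → infDist z E ≤ 1 →
      ‖resolvent S z‖ ≤ C / infDist z E ^ k)
    {c : ℂ} (hc : spectrum ℂ A = {c}) (hcE : c ∈ E) :
    ∃ m : ℕ, m ≠ 0 ∧ IsCompactOperator ((A - algebraMap ℂ (V →L[ℂ] V) c) ^ m : V →L[ℂ] V) := by
  obtain ⟨C, k, hC⟩ := hSg
  obtain ⟨F, i1, i2, i3, Φ, hΦ, hΦn⟩ := exists_ess V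
  have h1 : Φ ((A - algebraMap ℂ (V →L[ℂ] V) c) ^ (2 * k)) = 0 := by
    refine block_single hE Φ (C := max 1 (‖l‖ * ‖j‖ * |C|)) (le_max_left _ _)
      (fun z hz => by rw [hc] at hz; exact hz) ?_
    intro z hzE hzc hzA
    have hd : 0 < infDist z E := (hE.1.notMem_iff_infDist_pos hE.2.1).1 hzE
    have hd1 : infDist z E ≤ 1 := by
      refine (infDist_le_dist_of_mem hcE).trans ?_
      rw [dist_eq_norm]
      exact hzc.le
    have h2 := res_diff hl (hS z hzE) hzA
    have h3 : Φ (resolvent A z) = Φ (l.comp ((resolvent S z).comp j)) := by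
      rw [h2, map_add]
      have h4 : IsCompactOperator ((l.comp (resolvent S z)).comp
          ((S.comp j - j.comp A).comp (resolvent A z)) : V →L[ℂ] V) :=
        (hD.comp_clm (resolvent A z)).clm_comp (l.comp (resolvent S z))
      rw [(hΦ _).2 h4, add_zero]
    rw [h3]
    refine (hΦn _).trans ?_
    have h5 : ‖resolvent S z‖ ≤ |C| / infDist z E ^ k := by
      refine (hC z hzE hd1).trans ?_
      gcongr
      exact le_abs_self C
    calc ‖l.comp ((resolvent S z).comp j)‖ ≤ ‖l‖ * (‖resolvent S z‖ * ‖j‖) :=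
          (ContinuousLinearMap.opNorm_comp_le _ _).trans
            (by gcongr; exact ContinuousLinearMap.opNorm_comp_le _ _)
      _ ≤ ‖l‖ * ((|C| / infDist z E ^ k) * ‖j‖) := by gcongr
      _ = (‖l‖ * ‖j‖ * |C|) / infDist z E ^ k := by ring
      _ ≤ _ := by
          gcongr
          exact le_max_right _ _
  refine ⟨2 * k + 1, by omega, ?_⟩
  rw [pow_succ]
  exact ((hΦ _).1 h1).comp_clm _

/-- the range of a left invertible operator -/
theorem intw_range' {B₀ : G →L[ℂ] G} {A : V →L[ℂ] V} {j : V →L[ℂ] G} {l : G →L[ℂ] V}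
    (hl : ∀ v, l (j v) = v) (h : ∀ v, B₀ (j v) = j (A v)) :
    ∃ (W : Submodule ℂ G) (_ : CompleteSpace W) (e : V ≃L[ℂ] W) (B : W →L[ℂ] W)
      (Jt : G →L[ℂ] W), (∀ v, (e v : G) = j v) ∧ (∀ v, B (e v) = e (A v)) ∧
      Intw B₀ B W.subtypeL Jt := by
  have hmem : ∀ w, w ∈ LinearMap.range (j : V →ₗ[ℂ] G) ↔ j (l w) = w := by
    intro w
    constructor
    · rintro ⟨v, rfl⟩
      change j (l (j v)) = j v
      rw [hl]
    · intro h
      exact ⟨l w, h⟩
  have hcl : IsClosed (LinearMap.range (j : V →ₗ[ℂ] G) : Set G) := by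
    have h1 : (LinearMap.range (j : V →ₗ[ℂ] G) : Set G) = {w | j (l w) = w} := by
      ext w
      exact hmem w
    rw [h1]
    exact isClosed_eq (j.continuous.comp l.continuous) continuous_id
  have hcs : CompleteSpace (LinearMap.range (j : V →ₗ[ℂ] G)) := hcl.completeSpace_coe
  obtain ⟨e, he⟩ : ∃ e : V ≃L[ℂ] LinearMap.range (j : V →ₗ[ℂ] G), ∀ v, (e v : G) = j v := by
    refine ⟨ContinuousLinearEquiv.equivOfInverse
      (j.codRestrict (LinearMap.range (j : V →ₗ[ℂ] G)) fun v => ⟨v, rfl⟩)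
      (l.comp (LinearMap.range (j : V →ₗ[ℂ] G)).subtypeL) ?_ ?_, fun v => rfl⟩
    · intro v
      exact hl v
    · rintro ⟨w, hw⟩
      exact Subtype.ext ((hmem w).1 hw)
  have hW : ∀ w ∈ LinearMap.range (j : V →ₗ[ℂ] G), B₀ w ∈ LinearMap.range (j : V →ₗ[ℂ] G) := by
    rintro _ ⟨v, rfl⟩
    exact ⟨A v, (h v).symm⟩
  refine ⟨LinearMap.range (j : V →ₗ[ℂ] G), hcs, e, B₀.restrict hW,
    (e : V →L[ℂ] LinearMap.range (j : V →ₗ[ℂ] G)).comp l, he, ?_, ?_, ?_, ?_⟩
  · intro v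
    apply Subtype.ext
    change B₀ (e v) = (e (A v) : G)
    rw [he, he, h]
  · intro y
    apply Subtype.ext
    change (e (l (y : G)) : G) = y
    rw [he]
    exact (hmem y).1 y.2
  · intro y
    rfl
  · intro y
    rfl

/-- approximation of the perturbation -/
theorem pert_decay' {D : V →L[ℂ] G} {L : G →L[ℂ] V}
    (h : ∃ C ε : ℝ, 0 < ε ∧ ∀ m : ℕ, 1 ≤ m → ∃ F : V →L[ℂ] G,
      FiniteDimensional ℂ (LinearMap.range (F : V →ₗ[ℂ] G)) ∧
      Module.finrank ℂ (LinearMap.range (F : V →ₗ[ℂ] G)) ≤ m ∧ ‖D - F‖ ≤ C / (m : ℝ) ^ ε) :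
    ApproxDecay (-(D.comp L)) := by
  obtain ⟨C, ε, hε, h⟩ := h
  refine ⟨C * ‖L‖, ε, hε, fun m hm => ?_⟩
  obtain ⟨F, hF1, hF2, hF3⟩ := h m hm
  have hle : LinearMap.range ((-(F.comp L) : G →L[ℂ] G) : G →ₗ[ℂ] G) ≤
      LinearMap.range (F : V →ₗ[ℂ] G) := by
    rintro _ ⟨x, rfl⟩
    exact (LinearMap.range (F : V →ₗ[ℂ] G)).neg_mem ⟨_, rfl⟩
  refine ⟨-(F.comp L), Submodule.finiteDimensional_of_le hle,
    (Submodule.finrank_mono hle).trans hF2, ?_⟩
  have h2 : -(D.comp L) - -(F.comp L) = (F - D).comp L := by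
    rw [ContinuousLinearMap.sub_comp]
    abel
  rw [h2]
  calc ‖(F - D).comp L‖ ≤ ‖F - D‖ * ‖L‖ := ContinuousLinearMap.opNorm_comp_le _ _
    _ = ‖D - F‖ * ‖L‖ := by rw [norm_sub_rev]
    _ ≤ C / (m : ℝ) ^ ε * ‖L‖ := by gcongr
    _ = _ := by ring

theorem pert' {S : G →L[ℂ] G} {A : V →L[ℂ] V} {J : V →L[ℂ] G} {L : G →L[ℂ] V}
    (hL : ∀ v, L (J v) = v) (v : V) :
    (S + -((S.comp J - J.comp A).comp L)) (J v) = J (A v) := by
  change S (J v) + -(S (J (L (J v))) - J (A (L (J v)))) = J (A v)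
  rw [hL]
  abel

end

section hilbert

variable {G : Type} [NormedAddCommGroup G] [NormedSpace ℂ G] [CompleteSpace G]
variable {V : Type} [NormedAddCommGroup V] [InnerProductSpace ℂ V] [CompleteSpace V]

/-- a power of `T - c` is compact -/
theorem hyp_pow {T : V →L[ℂ] V} (c : ℂ) {n : ℕ} (hn : n ≠ 0)
    (h : IsCompactOperator ((T - algebraMap ℂ (V →L[ℂ] V) c) ^ n : V →L[ℂ] V)) :
    IsScalar T ∨ HasHyp T := by
  have e : aeval T ((X - C c) ^ n : ℂ[X]) = (T - algebraMap ℂ (V →L[ℂ] V) c) ^ n := by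
    rw [map_pow, map_sub, aeval_X, aeval_C]
  have h1 : IsScalar (aeval T ((X - C c) ^ n : ℂ[X])) ∨ HasHyp (aeval T ((X - C c) ^ n : ℂ[X])) := by
    rw [e]
    by_cases hs : IsScalar ((T - algebraMap ℂ (V →L[ℂ] V) c) ^ n)
    · exact Or.inl hs
    · exact Or.inr (Pool.Agent.W577.HI.G1.main V _ h hs)
  rcases h1 with h | ⟨V, h1, h2, h3, h4⟩
  · refine alg_hyp (q := (X - C c) ^ n) ?_ h
    rw [natDegree_pow, natDegree_X_sub_C, mul_one]
    exact Nat.pos_of_ne_zero hn
  · right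
    refine ⟨V, h1, h2, h3, fun Q hQ => h4 Q ?_⟩
    exact cent_aeval T _ Q hQ

/-- hyperinvariant subspaces of `A`, related to `S + K` -/
theorem hyp_growth (S K : G →L[ℂ] G) (γ : ℝ → ℂ) (L₀ : NNReal) (hγ : LipschitzWith L₀ γ)
    (hS : ∀ z, z ∉ γ '' Set.Icc 0 1 → z ∈ resolventSet ℂ S)
    (hSg : ∃ (C : ℝ) (k : ℕ), ∀ z, z ∉ γ '' Set.Icc 0 1 → infDist z (γ '' Set.Icc 0 1) ≤ 1 →
      ‖resolvent S z‖ ≤ C / infDist z (γ '' Set.Icc 0 1) ^ k)
    (hK : ApproxDecay K) {A : V →L[ℂ] V} {j : V →L[ℂ] G} {l : G →L[ℂ] V}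
    (hl : ∀ v, l (j v) = v) (h : ∀ v, (S + K) (j v) = j (A v)) : IsScalar A ∨ HasHyp A := by
  obtain ⟨W, hW, e, B, Jt, he, hB, hI⟩ := intw_range' hl h
  have hKc := Pool.Agent.W991.HI.E5.compact_of_decay K hK
  obtain ⟨C₀, hE⟩ := curve_thin γ L₀ hγ
  refine transfer e hB (summand_hyp S K γ L₀ hγ hS hSg hK hI ?_)
  intro c hc
  by_cases hcE : c ∈ γ '' Set.Icc 0 1
  · have hcA : spectrum ℂ A = {c} := by rw [← spec_eq e hB]; exact hc
    have hD : IsCompactOperator (S.comp j - j.comp A : V →L[ℂ] G) := by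
      have h1 : (S.comp j - j.comp A : V →L[ℂ] G) = -(K.comp j) := by
        ext v
        change S (j v) - j (A v) = -K (j v)
        rw [← h, add_apply]
        abel
      rw [h1]
      exact (hKc.comp_clm j).neg
    obtain ⟨m, hm, hmc⟩ := ess_single hl hD hE hS hSg hcA hcE
    have h4 := hyp_pow c hm hmc
    refine transfer e.symm (B := A) ?_ h4
    intro w
    apply e.injective
    rw [← hB, e.apply_symm_apply, e.apply_symm_apply]
  · exact outside hKc (hS c hcE) hI (by rw [hc]; rfl)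

end hilbert

section main

variable {G : Type} [NormedAddCommGroup G] [NormedSpace ℂ G] [CompleteSpace G]
variable {H : Type} [NormedAddCommGroup H] [InnerProductSpace ℂ H] [CompleteSpace H]

/-- **the part without eigenvalues**: spectrum and resolvent of `q(T)` -/
theorem part_growth (S K : G →L[ℂ] G) (γ : ℝ → ℂ) (L₀ : NNReal) (hγ : LipschitzWith L₀ γ)
    (hS : ∀ z, z ∉ γ '' Set.Icc 0 1 → z ∈ resolventSet ℂ S)
    (hSg : ∃ (C : ℝ) (k : ℕ), ∀ z, z ∉ γ '' Set.Icc 0 1 → infDist z (γ '' Set.Icc 0 1) ≤ 1 →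
      ‖resolvent S z‖ ≤ C / infDist z (γ '' Set.Icc 0 1) ^ k)
    (hK : ApproxDecay K) {T : H →L[ℂ] H} (hred : Reductive T) (hT : NoEig T) {q : ℂ[X]}
    (hq : 0 < q.natDegree) {J : H →L[ℂ] G} {L : G →L[ℂ] H} (hL : ∀ v, L (J v) = v)
    (hJ : ∀ v, (S + K) (J v) = J (aeval T q v)) :
    (∀ z, z ∉ γ '' Set.Icc 0 1 → z ∈ resolventSet ℂ (aeval T q)) ∧
    ∃ (C : ℝ) (k : ℕ), ∀ z, z ∉ γ '' Set.Icc 0 1 → infDist z (γ '' Set.Icc 0 1) ≤ 1 →
      ‖resolvent (aeval T q) z‖ ≤ C / infDist z (γ '' Set.Icc 0 1) ^ k := by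
  set E : Set ℂ := γ '' Set.Icc 0 1 with hEdef
  have hKc := Pool.Agent.W991.HI.E5.compact_of_decay K hK
  set A := aeval T q with hA
  have hqc : ∀ c : ℂ, q - C c ≠ 0 := by
    intro c h
    have h1 := natDegree_sub_C (p := q) (a := c)
    rw [h, natDegree_zero] at h1
    omega
  have hAc : ∀ (c : ℂ) (y : H), A y = c • y → y = 0 := by
    intro c y hy
    refine hT.inj _ (q - C c) (hqc c) le_rfl y ?_
    rw [map_sub, aeval_C, Algebra.algebraMap_eq_smul_one]
    change A y - c • y = 0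
    rw [hy, sub_self]
  have hcen : Cent T A := cent_aeval T q
  -- rich
  have hr : Rich T := by
    intro V hV
    have : CompleteSpace V := hV.1.completeSpace_coe
    have h1 : ∀ v : V, (V.orthogonalProjection.comp L) ((J.comp V.subtypeL) v) = v := by
      intro v
      change V.orthogonalProjection (L (J (v : H))) = v
      rw [hL]
      exact Submodule.orthogonalProjection_mem_subspace_eq_self v
    have h2 : ∀ v : V, (S + K) ((J.comp V.subtypeL) v) =
        (J.comp V.subtypeL) (aeval (T.restrict hV.inv) q v) := by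
      intro v
      change (S + K) (J (v : H)) = J ((aeval (T.restrict hV.inv) q v : V) : H)
      rw [aeval_restrict, hJ]
    rcases hyp_growth S K γ L₀ hγ hS hSg hK h1 h2 with ⟨c, hc⟩ | ⟨M, hMc, hM0, hM1, hMQ⟩
    · left
      rw [eq_bot_iff]
      intro x hx
      have h3 : ((aeval (T.restrict hV.inv) q ⟨x, hx⟩ : V) : H) = c • x :=
        congrArg (fun L : V →L[ℂ] V => ((L ⟨x, hx⟩ : V) : H)) hc
      rw [aeval_restrict] at h3
      rw [Submodule.mem_bot]
      exact hAc c x h3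
    · right
      exact ⟨M, hMc, hM0, hM1, fun Q hQ => hMQ Q (cent_aeval _ q Q hQ)⟩
  -- spectrum
  have hspec : ∀ z, z ∉ E → z ∈ resolventSet ℂ A := by
    intro z hzE
    have hzN := hS z hzE
    obtain ⟨W, hW, e, B, Jt, he, hB, hI⟩ := intw_range' hL hJ
    obtain ⟨c, hc, hbd⟩ := bdd_below hKc hzN hI (by
      intro w hw
      obtain ⟨v, rfl⟩ := e.surjective w
      rw [hB, ← map_smul] at hw
      rw [hAc z v (e.injective hw), map_zero])
    have hbd' : ∀ v, c * ‖v‖ ≤ (‖J‖ + 1) * (‖L‖ + 1) * ‖z • v - A v‖ := by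
      intro v
      have h1 := hbd (e v)
      rw [hB, ← map_smul, ← map_sub] at h1
      have h2 : ‖e (z • v - A v)‖ ≤ (‖J‖ + 1) * ‖z • v - A v‖ := by
        have h3 : ‖e (z • v - A v)‖ = ‖J (z • v - A v)‖ := by
          rw [← he]; rfl
        rw [h3]
        refine (J.le_opNorm _).trans ?_
        gcongr
        linarith
      have h4 : ‖v‖ ≤ (‖L‖ + 1) * ‖e v‖ := by
        have h5 : ‖e v‖ = ‖J v‖ := by rw [← he]; rfl
        rw [h5]
        calc ‖v‖ = ‖L (J v)‖ := by rw [hL]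
          _ ≤ ‖L‖ * ‖J v‖ := L.le_opNorm _
          _ ≤ (‖L‖ + 1) * ‖J v‖ := by gcongr; linarith
      calc c * ‖v‖ ≤ c * ((‖L‖ + 1) * ‖e v‖) := by gcongr
        _ = (‖L‖ + 1) * (c * ‖e v‖) := by ring
        _ ≤ (‖L‖ + 1) * ((‖J‖ + 1) * ‖z • v - A v‖) :=
            mul_le_mul_of_nonneg_left (h1.trans h2) (by positivity)
        _ = _ := by ring
    set c' : ℝ := c / ((‖J‖ + 1) * (‖L‖ + 1)) with hc'
    have hc'0 : 0 < c' := by positivity
    set R : H →L[ℂ] H := z • (1 : H →L[ℂ] H) - A with hR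
    have hRx : ∀ y, R y = z • y - A y := fun y => rfl
    have hanti : AntilipschitzWith (Real.toNNReal c'⁻¹) R := by
      refine R.antilipschitz_of_bound ?_
      intro x
      rw [Real.coe_toNNReal _ (by positivity), hRx]
      have := hbd' x
      rw [inv_mul_eq_div, le_div_iff₀ hc'0, hc', mul_div_assoc', div_le_iff₀ (by positivity)]
      linarith
    have hinj : Function.Injective R := hanti.injective
    have hclosed : IsClosed (LinearMap.range (R : H →ₗ[ℂ] H) : Set H) := by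
      have := hanti.isClosed_range R.uniformContinuous
      exact this
    have hRc : Cent T R := by
      intro Q hQ
      rw [hR, mul_sub, sub_mul, hcen Q hQ, mul_smul_comm, smul_mul_assoc, mul_one, one_mul]
    have hRH : Hyper T (LinearMap.range (R : H →ₗ[ℂ] H)) := by
      refine ⟨hclosed, ?_⟩
      rintro Q hQ _ ⟨y, rfl⟩
      refine ⟨Q y, ?_⟩
      have := congrArg (fun L : H →L[ℂ] H => L y) (hRc Q hQ)
      simp only [mul_apply_eq_comp] at this
      exact this.symm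
    have hbot : (LinearMap.range (R : H →ₗ[ℂ] H))ᗮ = ⊥ := by
      rw [eq_bot_iff]
      intro y hy
      have h1 := hRc.map hred (hyper_orth hred hRH) y hy
      have h2 : ⟪R y, R y⟫_ℂ = 0 := (Submodule.mem_orthogonal _ _).1 h1 _ ⟨y, rfl⟩
      have h3 := inner_self_eq_zero.1 h2
      rw [hRx, sub_eq_zero] at h3
      rw [Submodule.mem_bot]
      exact hAc z y h3.symm
    have htop : LinearMap.range (R : H →ₗ[ℂ] H) = ⊤ := by
      have : CompleteSpace (LinearMap.range (R : H →ₗ[ℂ] H)) := hclosed.completeSpace_coe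
      exact Submodule.orthogonal_eq_bot_iff.1 hbot
    rw [spectrum.mem_resolventSet_iff, Algebra.algebraMap_eq_smul_one]
    have hsurj : Function.Surjective R := LinearMap.range_eq_top.1 htop
    have h2 : IsUnit R := by
      rw [ContinuousLinearMap.isUnit_iff_bijective]
      exact ⟨hinj, hsurj⟩
    exact h2
  refine ⟨hspec, ?_⟩
  -- the resolvent
  obtain ⟨C, k, hC⟩ := hSg
  have hD : IsCompactOperator (S.comp J - J.comp A : H →L[ℂ] G) := by
    have h1 : (S.comp J - J.comp A : H →L[ℂ] G) = -(K.comp J) := by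
      ext v
      change S (J v) - J (A v) = -K (J v)
      rw [← hJ, add_apply]
      abel
    rw [h1]
    exact (hKc.comp_clm J).neg
  refine ⟨‖L‖ * ‖J‖ * |C|, k, fun z hzE hz1 => ?_⟩
  have h2 := res_diff hL (hS z hzE) (hspec z hzE)
  have h4 : IsCompactOperator ((L.comp (resolvent S z)).comp
      ((S.comp J - J.comp A).comp (resolvent A z)) : H →L[ℂ] H) :=
    (hD.comp_clm (resolvent A z)).clm_comp (L.comp (resolvent S z))
  have h5 : Cent T (resolvent A z) := by
    intro Q hQ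
    exact Pool.Agent.W816.HI.res_comm (hcen Q hQ) z
  have h6 := norm_le_ess hred hr h5 h4
  rw [← h2] at h6
  have h7 : ‖resolvent S z‖ ≤ |C| / infDist z E ^ k := by
    refine (hC z hzE hz1).trans ?_
    have : 0 ≤ infDist z E := infDist_nonneg
    gcongr
    exact le_abs_self C
  calc ‖resolvent A z‖ ≤ ‖L.comp ((resolvent S z).comp J)‖ := h6
    _ ≤ ‖L‖ * (‖resolvent S z‖ * ‖J‖) :=
        (ContinuousLinearMap.opNorm_comp_le _ _).trans
          (by gcongr; exact ContinuousLinearMap.opNorm_comp_le _ _)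
    _ ≤ ‖L‖ * ((|C| / infDist z E ^ k) * ‖J‖) := by gcongr
    _ = _ := by ring

end main

end Pool.Agent.H259.RR
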