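import Pool.Agent.H259.RR.Lim

/-!
# Reductive operators related to operators with polynomially bounded resolvents
-/

set_option autoImplicit false
set_option linter.unusedSectionVars false

open MeasureTheory Filter Topology Set Metric Polynomial
open scoped NNReal ENNReal InnerProductSpace

namespace Pool.Agent.H259.RR

open Pool.Agent.W402.HI Pool.Agent.W706.HIR Pool.Agent.K4H63.RC Pool.Agent.K4H63.RD

variable {H : Type} [NormedAddCommGroup H] [InnerProductSpace ℂ H] [CompleteSpace H]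
variable {G : Type} [NormedAddCommGroup G] [NormedSpace ℂ G] [CompleteSpace G]

/-- **the theorem**, with `S + K` -/
theorem main (S K : G →L[ℂ] G) (γ : ℝ → ℂ) (L₀ : NNReal) (hγ : LipschitzWith L₀ γ)
    (hS : ∀ z, z ∉ γ '' Set.Icc 0 1 → z ∈ resolventSet ℂ S)
    (hSg : ∃ (C : ℝ) (k : ℕ), ∀ z, z ∉ γ '' Set.Icc 0 1 → infDist z (γ '' Set.Icc 0 1) ≤ 1 →
      ‖resolvent S z‖ ≤ C / infDist z (γ '' Set.Icc 0 1) ^ k)
    (hK : ApproxDecay K) {T : H →L[ℂ] H} (hred : Reductive T) {q : ℂ[X]}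
    (hq : 0 < q.natDegree) {J : H →L[ℂ] G} {L : G →L[ℂ] H} (hL : ∀ v, L (J v) = v)
    (hJ : ∀ v, (S + K) (J v) = J (aeval T q v)) : IsStarNormal T := by
  set M : Submodule ℂ H := sInf {V | ∃ z, V = (F T z)ᗮ} with hM
  have hMH : Hyper T M := by
    refine hyper_sInf _ ?_
    rintro V ⟨z, rfl⟩
    exact hyper_orth hred (hyper_F T z)
  have hMle : ∀ z, M ≤ (F T z)ᗮ := fun z => sInf_le ⟨z, rfl⟩
  have hMc : CompleteSpace M := hMH.1.completeSpace_coe
  have hMS : ∀ x ∈ M, ContinuousLinearMap.adjoint T x ∈ M := hred M hMH.1 hMH.inv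
  have hredM : Reductive (T.restrict hMH.inv) := red_restrict hred hMH.1 hMH.inv
  have hNE : NoEig (T.restrict hMH.inv) := by
    intro z y hy
    have h1 : (y : H) ∈ F T z := mem_F.2 (congrArg Subtype.val hy)
    have h2 := hMle z y.2
    have h3 : ⟪(y : H), (y : H)⟫_ℂ = 0 := (Submodule.mem_orthogonal _ _).1 h2 _ h1
    rw [inner_self_eq_zero] at h3
    exact Subtype.ext h3
  have hscM : sc (T.restrict hMH.inv) = 0 := by
    have h1 : ∀ v : M, (M.orthogonalProjection.comp L) ((J.comp M.subtypeL) v) = v := by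
      intro v
      change M.orthogonalProjection (L (J (v : H))) = v
      rw [hL]
      exact Submodule.orthogonalProjection_mem_subspace_eq_self v
    have h2 : ∀ v : M, (S + K) ((J.comp M.subtypeL) v) =
        (J.comp M.subtypeL) (aeval (T.restrict hMH.inv) q v) := by
      intro v
      change (S + K) (J (v : H)) = J ((aeval (T.restrict hMH.inv) q v : M) : H)
      rw [aeval_restrict, hJ]
    obtain ⟨h3, h4⟩ := part_growth S K γ L₀ hγ hS hSg hK hredM hNE hq h1 h2
    have h5 := cent_normal hγ h3 h4 hredM (cent_aeval _ q)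
    exact normal_of_poly hq hredM hNE h5
  have hkey : ∀ x ∈ M, sc T x = 0 := by
    intro x hx
    have h2 : sc (T.restrict hMH.inv) ⟨x, hx⟩ = 0 := by rw [hscM]; rfl
    have h3 : ((sc (T.restrict hMH.inv) ⟨x, hx⟩ : M) : H) = sc T x := by
      unfold sc
      rw [adj_restrict hMH.inv hMS]
      rfl
    rw [← h3, h2]
    rfl
  have hker : Mᗮ ≤ LinearMap.ker (sc T : H →ₗ[ℂ] H) := by
    set N' : Submodule ℂ H := LinearMap.ker (sc T : H →ₗ[ℂ] H) with hN'
    have hNc : IsClosed (N' : Set H) := ContinuousLinearMap.isClosed_ker (sc T)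
    have : CompleteSpace N' := hNc.completeSpace_coe
    have h1 : ∀ z, F T z ≤ N' := by
      intro z x hx
      rw [hN', LinearMap.mem_ker]
      change sc T x = 0
      unfold sc
      rw [sub_apply, mul_apply_eq_comp, mul_apply_eq_comp, adj_F hred hx, mem_F.1 hx, map_smul,
        map_smul, adj_F hred hx, mem_F.1 hx, smul_comm, sub_self]
    have h2 : N'ᗮ ≤ M := by
      refine le_sInf ?_
      rintro V ⟨z, rfl⟩
      exact Submodule.orthogonal_le (h1 z)
    calc Mᗮ ≤ N'ᗮᗮ := Submodule.orthogonal_le h2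
      _ = N' := Submodule.orthogonal_orthogonal N'
  refine isStarNormal_of_sc ?_
  ext x
  have h1 : x = M.starProjection x + (x - M.starProjection x) := by abel
  have h2 : sc T (x - M.starProjection x) = 0 :=
    hker (Submodule.sub_starProjection_mem_orthogonal x)
  rw [h1, map_add, hkey _ (M.starProjection_apply_mem x), h2]
  simp

/-- **the theorem**, `J` with a left inverse, `S J - J q(T)` small -/
theorem final {S : G →L[ℂ] G} {γ : ℝ → ℂ} {L₀ : NNReal} (hγ : LipschitzWith L₀ γ)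
    (hS : ∀ z, z ∉ γ '' Set.Icc 0 1 → z ∈ resolventSet ℂ S)
    (hSg : ∃ (C : ℝ) (k : ℕ), ∀ z, z ∉ γ '' Set.Icc 0 1 → infDist z (γ '' Set.Icc 0 1) ≤ 1 →
      ‖resolvent S z‖ ≤ C / infDist z (γ '' Set.Icc 0 1) ^ k)
    {T : H →L[ℂ] H} (hred : Reductive T) {q : ℂ[X]} (hq : 0 < q.natDegree) {J : H →L[ℂ] G}
    {L : G →L[ℂ] H} (hL : ∀ v, L (J v) = v)
    (hD : ∃ C ε : ℝ, 0 < ε ∧ ∀ m : ℕ, 1 ≤ m → ∃ F : H →L[ℂ] G,
      FiniteDimensional ℂ (LinearMap.range (F : H →ₗ[ℂ] G)) ∧
      Module.finrank ℂ (LinearMap.range (F : H →ₗ[ℂ] G)) ≤ m ∧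
      ‖(S.comp J - J.comp (aeval T q)) - F‖ ≤ C / (m : ℝ) ^ ε) : IsStarNormal T :=
  main S _ γ L₀ hγ hS hSg (pert_decay' (L := L) hD) hred hq hL (pert' hL)

end Pool.Agent.H259.RR
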