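import Pool.Agent.H259.RR.Split

/-!
# Approximation by normal operators: bisection
-/

set_option autoImplicit false
set_option linter.unusedSectionVars false

open MeasureTheory Filter Topology Set Metric
open scoped NNReal ENNReal InnerProductSpace

namespace Pool.Agent.H259.RR

open Pool.Agent.W402.HI Pool.Agent.W706.HIR Pool.Agent.K4H63.RC Pool.Agent.K4H63.RD

variable {H : Type} [NormedAddCommGroup H] [InnerProductSpace ℂ H] [CompleteSpace H]
variable {T A : H →L[ℂ] H}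

/-- `D` and its adjoint are in the bicommutant of `T` -/
def PP (T D : H →L[ℂ] H) : Prop := Cent T D ∧ Cent T (star D)

theorem PP.add {D D' : H →L[ℂ] H} (h : PP T D) (h' : PP T D') : PP T (D + D') :=
  ⟨h.1.add h'.1, by rw [star_add]; exact h.2.add h'.2⟩

theorem PP.smul {D : H →L[ℂ] H} (h : PP T D) (c : ℂ) : PP T (c • D) :=
  ⟨h.1.smul c, by rw [star_smul]; exact h.2.smul _⟩

theorem PP.neg {D : H →L[ℂ] H} (h : PP T D) : PP T (-D) := by
  have := h.smul (-1)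
  rwa [neg_one_smul] at this

theorem PP.sub {D D' : H →L[ℂ] H} (h : PP T D) (h' : PP T D') : PP T (D - D') := by
  rw [sub_eq_add_neg]
  exact h.add h'.neg

theorem PP.mul {D D' : H →L[ℂ] H} (h : PP T D) (h' : PP T D') : PP T (D * D') :=
  ⟨h.1.mul h'.1, by rw [star_mul]; exact h'.2.mul h.2⟩

theorem PP.one : PP T 1 := ⟨Cent.one, by rw [star_one]; exact Cent.one⟩

theorem PP.proj (hred : Reductive T) {U : Submodule ℂ H} [CompleteSpace U] (hU : Hyper T U) :
    PP T U.starProjection := by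
  have h1 : star U.starProjection = U.starProjection :=
    (U.starProjection_isSymmetric).isSelfAdjoint
  exact ⟨cent_proj hred hU, by rw [h1]; exact cent_proj hred hU⟩

theorem PP.normal {D : H →L[ℂ] H} (h : PP T D) : IsStarNormal D := by
  constructor
  have := cent_comm h.2 h.1
  exact this

/-- `A` is close to an operator of `PP T` on `V` -/
def Good (T A : H →L[ℂ] H) (β : ℕ → ℝ) (V : Submodule ℂ H) : Prop :=
  ∃ D, PP T D ∧ ∀ n, ∀ x ∈ V, ‖((A - D) ^ n) x‖ ≤ β n * ‖x‖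

theorem Good.split (hred : Reductive T) (hA : Cent T A) {β : ℕ → ℝ} (hβ : ∀ n, 0 ≤ β n)
    {V W : Submodule ℂ H} (hV : Hyper T V) (hW : Hyper T W) (h1 : Good T A β (V ⊓ W))
    (h2 : Good T A β (V ⊓ Wᗮ)) : Good T A β V := by
  obtain ⟨D₁, hD₁, hb₁⟩ := h1
  obtain ⟨D₂, hD₂, hb₂⟩ := h2
  have hWo := hyper_orth hred hW
  have hWcs : CompleteSpace W := hW.1.completeSpace_coe
  set P := W.starProjection with hP
  have hPP : PP T P := PP.proj hred hW
  set D := D₁ * P + D₂ * (1 - P) with hD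
  have hDP : PP T D := (hD₁.mul hPP).add (hD₂.mul (PP.one.sub hPP))
  have hDx : ∀ x, D x = D₁ (P x) + D₂ (x - P x) := fun x => rfl
  refine ⟨D, hDP, fun n x hx => ?_⟩
  set p := P x with hp
  set u := x - p with hu
  have hpW : p ∈ W := W.starProjection_apply_mem x
  have huo : u ∈ Wᗮ := Submodule.sub_starProjection_mem_orthogonal x
  have hpV : p ∈ V := hPP.1.map hred hV x hx
  have huV : u ∈ V := V.sub_mem hx hpV
  have hxpu : x = p + u := by rw [hu]; abel
  have hc1 : Cent T (A - D₁) := fun Q hQ => by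
    rw [mul_sub, sub_mul, hA Q hQ, hD₁.1 Q hQ]
  have hc2 : Cent T (A - D₂) := fun Q hQ => by
    rw [mul_sub, sub_mul, hA Q hQ, hD₂.1 Q hQ]
  have hpow : ∀ {B : H →L[ℂ] H}, Cent T B → ∀ m : ℕ, Cent T (B ^ m) := by
    intro B hB m
    induction m with
    | zero => rw [pow_zero]; exact Cent.one
    | succ m ih => rw [pow_succ]; exact ih.mul hB
  have e1 : ∀ m : ℕ, ((A - D) ^ m) p = ((A - D₁) ^ m) p := by
    intro m
    induction m with
    | zero => rfl
    | succ m ih =>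
      rw [pow_succ', pow_succ', mul_apply_eq_comp, mul_apply_eq_comp, ih]
      set v := ((A - D₁) ^ m) p with hv
      have hvW : v ∈ W := (hpow hc1 m).map hred hW p hpW
      have h3 : P v = v := Submodule.starProjection_eq_self_iff.2 hvW
      rw [sub_apply, sub_apply, hDx, h3, sub_self, map_zero, add_zero]
  have e2 : ∀ m : ℕ, ((A - D) ^ m) u = ((A - D₂) ^ m) u := by
    intro m
    induction m with
    | zero => rfl
    | succ m ih =>
      rw [pow_succ', pow_succ', mul_apply_eq_comp, mul_apply_eq_comp, ih]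
      set v := ((A - D₂) ^ m) u with hv
      have hvW : v ∈ Wᗮ := (hpow hc2 m).map hred hWo u huo
      have h3 : P v = 0 := (Submodule.starProjection_apply_eq_zero_iff _).2 hvW
      rw [sub_apply, sub_apply, hDx, h3, sub_zero, map_zero, zero_add]
  have hn1 := hb₁ n p ⟨hpV, hpW⟩
  have hn2 := hb₂ n u ⟨huV, huo⟩
  have o1 : ⟪p, u⟫_ℂ = 0 := (Submodule.mem_orthogonal _ _).1 huo p hpW
  have o2 : ⟪((A - D₁) ^ n) p, ((A - D₂) ^ n) u⟫_ℂ = 0 :=
    (Submodule.mem_orthogonal _ _).1 ((hpow hc2 n).map hred hWo u huo) _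
      ((hpow hc1 n).map hred hW p hpW)
  have n1 : ‖x‖ ^ 2 = ‖p‖ ^ 2 + ‖u‖ ^ 2 := by
    rw [hxpu, sq, sq, sq]
    exact norm_add_sq_eq_norm_sq_add_norm_sq_of_inner_eq_zero p u o1
  have n2 : ‖((A - D) ^ n) x‖ ^ 2 = ‖((A - D₁) ^ n) p‖ ^ 2 + ‖((A - D₂) ^ n) u‖ ^ 2 := by
    rw [hxpu, map_add, e1, e2, sq, sq, sq]
    exact norm_add_sq_eq_norm_sq_add_norm_sq_of_inner_eq_zero _ _ o2
  have hβn := hβ n
  refine abs_le_of_sq_le_sq' ?_ (by positivity) |>.2
  rw [n2, mul_pow, n1, mul_add, ← mul_pow, ← mul_pow]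
  gcongr

/-- the restriction of the powers -/
theorem pow_restrict {V : Submodule ℂ H} (hAV : ∀ x ∈ V, A x ∈ V) (c : ℂ) (n : ℕ) (x : V) :
    ((((A.restrict hAV - algebraMap ℂ (V →L[ℂ] V) c) ^ n) x : V) : H) =
      ((A - c • (1 : H →L[ℂ] H)) ^ n) (x : H) := by
  induction n with
  | zero => rfl
  | succ n ih =>
    rw [pow_succ', pow_succ', mul_apply_eq_comp, mul_apply_eq_comp, ← ih]
    rfl

/-- small pieces are good -/
theorem good_block (hred : Reductive T) (hA : Cent T A) {E : Set ℂ} {C₀ : ℝ} (hE : Thin E C₀)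
    (hAs : ∀ z, z ∉ E → z ∈ resolventSet ℂ A) {C : ℝ} {k : ℕ} (hC : 1 ≤ C)
    (hAg : ∀ z, z ∉ E → infDist z E ≤ 1 → ‖resolvent A z‖ ≤ C / infDist z E ^ k)
    {r : ℝ} (hr : 0 < r) (hr1 : r ≤ 2 / 5) {V : Submodule ℂ H} (hV : Hyper T V) {c : ℂ} {K : Set ℂ}
    (hK : ∀ z ∈ K, ‖z - c‖ < r / 2) (h : SpIn T A V K) :
    Good T A (fun n => C * Real.exp (k * C₀) / (r / 2) ^ (2 * k) * r ^ (n + 1)) V := by
  refine ⟨c • 1, PP.one.smul c, fun n x hx => ?_⟩
  have hVcs : CompleteSpace V := hV.1.completeSpace_coe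
  have hAV : ∀ x ∈ V, A x ∈ V := hA.map hred hV
  have hAVo : ∀ x ∈ Vᗮ, A x ∈ Vᗮ := hA.map hred (hyper_orth hred hV)
  have hrr : ∀ z, z ∈ resolventSet ℂ A → z ∈ resolventSet ℂ (A.restrict hAV) ∧
      ‖resolvent (A.restrict hAV) z‖ ≤ ‖resolvent A z‖ := fun z hz =>
    Pool.Agent.W610.HY.Reduct.res_restrict hAV (fun x _ => rfl) hAVo hz
  have hsK := h.spec hred hA hV hAV
  rcases subsingleton_or_nontrivial V with hs | hn
  · have h0 : (⟨x, hx⟩ : V) = 0 := Subsingleton.elim _ _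
    have h1 : x = 0 := congrArg Subtype.val h0
    rw [h1, map_zero, norm_zero, mul_zero]
  obtain ⟨μ, hμ⟩ := spectrum.nonempty (A.restrict hAV)
  have hμE : μ ∈ E := by
    by_contra hcon
    exact hμ (hrr μ (hAs μ hcon)).1
  have hμc := hK μ (hsK hμ)
  have h1 := block (X := V) (F := V →L[ℂ] V) hE (ContinuousLinearMap.id ℂ (V →L[ℂ] V))
    (A := A.restrict hAV) (c := c) (r := r) (C := C) (k := k) hr (by linarith) hC
    (fun z hz => hK z (hsK hz)) (by
      intro z hzE hzc hzr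
      have hzA := hAs z hzE
      have h2 : infDist z E ≤ 1 := by
        refine (infDist_le_dist_of_mem hμE).trans ?_
        rw [dist_eq_norm]
        have h3 : z - μ = (z - c) - (μ - c) := by ring
        rw [h3]
        refine (norm_sub_le _ _).trans ?_
        linarith
      exact (hrr z hzA).2.trans (hAg z hzE h2)) n
  have h2 := ((A.restrict hAV - algebraMap ℂ (V →L[ℂ] V) c) ^ n).le_opNorm ⟨x, hx⟩
  have h3 : ‖((A.restrict hAV - algebraMap ℂ (V →L[ℂ] V) c) ^ n) ⟨x, hx⟩‖ =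
      ‖((A - c • (1 : H →L[ℂ] H)) ^ n) x‖ := by
    rw [← pow_restrict hAV c n ⟨x, hx⟩]
    rfl
  rw [h3] at h2
  refine h2.trans ?_
  have h4 : ‖(⟨x, hx⟩ : V)‖ = ‖x‖ := rfl
  rw [h4]
  gcongr
  exact h1

/-- rectangles -/
def Rc (a b s t : ℝ) : Set ℂ := {z | a ≤ z.re ∧ z.re ≤ a + s ∧ b ≤ z.im ∧ z.im ≤ b + t}

/-- all pieces with spectrum in rectangles of a given size are good -/
def Cl (T A : H →L[ℂ] H) (β : ℕ → ℝ) (s t : ℝ) : Prop :=
  ∀ V : Submodule ℂ H, Hyper T V → ∀ a b, SpIn T A V (Rc a b s t) → Good T A β V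

section bis

variable {γ : ℝ → ℂ} {L₀ : ℝ≥0} (hγ : LipschitzWith L₀ γ)
    (hAs : ∀ z, z ∉ γ '' Set.Icc 0 1 → z ∈ resolventSet ℂ A)
    (hAg : ∃ (C : ℝ) (k : ℕ), ∀ z, z ∉ γ '' Set.Icc 0 1 → infDist z (γ '' Set.Icc 0 1) ≤ 1 →
      ‖resolvent A z‖ ≤ C / infDist z (γ '' Set.Icc 0 1) ^ k)

include hγ hAs hAg

theorem Cl.vert (hred : Reductive T) (hA : Cent T A) {β : ℕ → ℝ} (hβ : ∀ n, 0 ≤ β n)
    {s t : ℝ} (hs : 0 < s) (h : Cl T A β (3 / 4 * s) t) : Cl T A β s t := by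
  intro V hV a b hVK
  obtain ⟨c, hc, W, hW, h1, h2⟩ := RR.split hred hA hγ hAs hAg (e := 1) (by simp)
    (show a + s / 4 < a + 3 * s / 4 by linarith)
  have hWo := hyper_orth hred hW
  refine Good.split hred hA hβ hV hW ?_ ?_
  · refine h (V ⊓ W) (hyper_inf hV hW) (a + s / 4) b ?_
    refine ((hVK.mono inf_le_left subset_rfl).inter (h1.mono inf_le_right subset_rfl)).mono
      le_rfl ?_
    rintro z ⟨⟨h3, h4, h5, h6⟩, h7⟩
    simp only [one_mul, Set.mem_setOf_eq] at h7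
    exact ⟨by linarith [hc.1], by linarith, h5, h6⟩
  · refine h (V ⊓ Wᗮ) (hyper_inf hV hWo) a b ?_
    refine ((hVK.mono inf_le_left subset_rfl).inter (h2.mono inf_le_right subset_rfl)).mono
      le_rfl ?_
    rintro z ⟨⟨h3, h4, h5, h6⟩, h7⟩
    simp only [one_mul, Set.mem_setOf_eq] at h7
    exact ⟨h3, by linarith [hc.2], h5, h6⟩

theorem Cl.horiz (hred : Reductive T) (hA : Cent T A) {β : ℕ → ℝ} (hβ : ∀ n, 0 ≤ β n)
    {s t : ℝ} (ht : 0 < t) (h : Cl T A β s (3 / 4 * t)) : Cl T A β s t := by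
  intro V hV a b hVK
  obtain ⟨c, hc, W, hW, h1, h2⟩ := RR.split hred hA hγ hAs hAg (e := -Complex.I) (by simp)
    (show b + t / 4 < b + 3 * t / 4 by linarith)
  have hWo := hyper_orth hred hW
  refine Good.split hred hA hβ hV hW ?_ ?_
  · refine h (V ⊓ W) (hyper_inf hV hW) a (b + t / 4) ?_
    refine ((hVK.mono inf_le_left subset_rfl).inter (h1.mono inf_le_right subset_rfl)).mono
      le_rfl ?_
    rintro z ⟨⟨h3, h4, h5, h6⟩, h7⟩
    simp only [neg_mul, Complex.neg_re, Complex.I_mul_re, neg_neg, Set.mem_setOf_eq] at h7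
    exact ⟨h3, h4, by linarith [hc.1], by linarith⟩
  · refine h (V ⊓ Wᗮ) (hyper_inf hV hWo) a b ?_
    refine ((hVK.mono inf_le_left subset_rfl).inter (h2.mono inf_le_right subset_rfl)).mono
      le_rfl ?_
    rintro z ⟨⟨h3, h4, h5, h6⟩, h7⟩
    simp only [neg_mul, Complex.neg_re, Complex.I_mul_re, neg_neg, Set.mem_setOf_eq] at h7
    exact ⟨h3, h4, h5, by linarith [hc.2]⟩

/-- **the whole space is good** -/
theorem good_top (hred : Reductive T) (hA : Cent T A) : ∃ (C : ℝ) (k : ℕ), 0 ≤ C ∧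
    ∀ r : ℝ, 0 < r → r ≤ 2 / 5 → Good T A (fun n => C / r ^ (2 * k) * r ^ (n + 1)) ⊤ := by
  obtain ⟨C₀, hE⟩ := curve_thin γ L₀ hγ
  obtain ⟨C, k, hC⟩ := id hAg
  set C' := max 1 |C| with hC'
  have hC1 : 1 ≤ C' := le_max_left _ _
  have hCg : ∀ z, z ∉ γ '' Set.Icc 0 1 → infDist z (γ '' Set.Icc 0 1) ≤ 1 →
      ‖resolvent A z‖ ≤ C' / infDist z (γ '' Set.Icc 0 1) ^ k := by
    intro z h1 h2
    refine (hC z h1 h2).trans ?_
    have : 0 ≤ infDist z (γ '' Set.Icc 0 1) := infDist_nonneg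
    gcongr
    exact (le_abs_self C).trans (le_max_right _ _)
  refine ⟨C' * Real.exp (k * C₀) * 2 ^ (2 * k), k, by positivity, fun r hr hr1 => ?_⟩
  set β : ℕ → ℝ := fun n => C' * Real.exp (k * C₀) / (r / 2) ^ (2 * k) * r ^ (n + 1) with hβd
  have hβ : ∀ n, 0 ≤ β n := fun n => by positivity
  have hβe : (fun n => C' * Real.exp (k * C₀) * 2 ^ (2 * k) / r ^ (2 * k) * r ^ (n + 1)) = β := by
    funext n
    rw [hβd]
    simp only
    rw [div_pow]
    field_simp
  rw [hβe]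
  -- the small squares
  have h0 : Cl T A β (r / 2) (r / 2) := by
    intro V hV a b hVK
    refine good_block hred hA hE hAs hC1 hCg hr hr1 hV (c := ⟨a + r / 4, b + r / 4⟩)
      (K := Rc a b (r / 2) (r / 2)) ?_ hVK
    rintro z ⟨h1, h2, h3, h4⟩
    have e1 : (z - (⟨a + r / 4, b + r / 4⟩ : ℂ)).re = z.re - (a + r / 4) := rfl
    have e2 : (z - (⟨a + r / 4, b + r / 4⟩ : ℂ)).im = z.im - (b + r / 4) := rfl
    have h5 : ‖z - (⟨a + r / 4, b + r / 4⟩ : ℂ)‖ ^ 2 ≤ (r / 4) ^ 2 + (r / 4) ^ 2 := by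
      rw [Complex.sq_norm, Complex.normSq_apply, e1, e2]
      have h6 : (z.re - (a + r / 4)) * (z.re - (a + r / 4)) ≤ (r / 4) ^ 2 := by nlinarith
      have h7 : (z.im - (b + r / 4)) * (z.im - (b + r / 4)) ≤ (r / 4) ^ 2 := by nlinarith
      linarith
    have h6 : ‖z - (⟨a + r / 4, b + r / 4⟩ : ℂ)‖ ^ 2 < (r / 2) ^ 2 := by nlinarith
    exact lt_of_pow_lt_pow_left₀ 2 (by positivity) h6
  have h1 : ∀ n : ℕ, Cl T A β ((4 / 3) ^ n * (r / 2)) (r / 2) := by
    intro n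
    induction n with
    | zero => simpa using h0
    | succ n ih =>
      refine Cl.vert hγ hAs hAg hred hA hβ (by positivity) ?_
      have : 3 / 4 * ((4 / 3) ^ (n + 1) * (r / 2)) = (4 / 3) ^ n * (r / 2) := by
        rw [pow_succ]; ring
      rw [this]
      exact ih
  have h2 : ∀ n m : ℕ, Cl T A β ((4 / 3) ^ n * (r / 2)) ((4 / 3) ^ m * (r / 2)) := by
    intro n m
    induction m with
    | zero => simpa using h1 n
    | succ m ih =>
      refine Cl.horiz hγ hAs hAg hred hA hβ (by positivity) ?_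
      have : 3 / 4 * ((4 / 3) ^ (m + 1) * (r / 2)) = (4 / 3) ^ m * (r / 2) := by
        rw [pow_succ]; ring
      rw [this]
      exact ih
  obtain ⟨R, hR⟩ : ∃ R : ℝ, ∀ z ∈ spectrum ℂ A, ‖z‖ ≤ R :=
    (spectrum.isCompact A).isBounded.exists_norm_le
  obtain ⟨n, hn⟩ := pow_unbounded_of_one_lt (2 * |R| / (r / 2)) (show (1 : ℝ) < 4 / 3 by norm_num)
  rw [div_lt_iff₀ (by positivity)] at hn
  refine h2 n n ⊤ (hyper_top T) (-|R|) (-|R|) ?_
  intro z hz
  have hzA : z ∈ resolventSet ℂ A := by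
    by_contra hcon
    apply hz
    have h3 := (hR z hcon).trans (le_abs_self R)
    have h4 := (Complex.abs_re_le_norm z).trans h3
    have h5 := (Complex.abs_im_le_norm z).trans h3
    rw [abs_le] at h4 h5
    exact ⟨by linarith [h4.1], by linarith [h4.2], by linarith [h5.1], by linarith [h5.2]⟩
  obtain ⟨a1, a2⟩ := res_apply hzA
  exact ⟨resolvent A z, fun Q hQ => Pool.Agent.W816.HI.res_comm (hA Q hQ) z, fun x _ => a1 x⟩

end bis

end Pool.Agent.H259.RR
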