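import Pool.Graph.R_pool_sql_team_seeded_c8625f6e.K4H63.RC.A1

/-!
# Analytic functions with growth near a rectifiable curve

If `f` is analytic in a disc and bounded by an inverse power of the distance to a rectifiable curve off
the curve, then `f` at the centre is bounded by an inverse power of the radius.
-/

set_option autoImplicit false

open MeasureTheory Filter Topology Set Metric

namespace Pool.Agent.H259.RR

open Pool.Agent.K4H63.RC

/-- areas of the neighbourhoods of a Lipschitz curve -/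
theorem curve_area (γ : ℝ → ℂ) (L : NNReal) (hγ : LipschitzWith L γ) :
    ∃ C₀ : ℝ, 0 ≤ C₀ ∧ ∀ t : ℝ, 0 < t → t ≤ 1 →
      volume (thickening t (γ '' Icc 0 1)) ≤ ENNReal.ofReal (C₀ * t) := by
  refine ⟨3 * (((L : ℝ) + 1) ^ 2 * Real.pi), by positivity, fun t ht ht1 => ?_⟩
  obtain ⟨n, hn⟩ : ∃ n : ℕ, n = ⌈1 / t⌉₊ := ⟨_, rfl⟩
  have h1 : 1 / t ≤ n := by rw [hn]; exact Nat.le_ceil _
  have h2 : (n : ℝ) < 1 / t + 1 := by rw [hn]; exact Nat.ceil_lt_add_one (by positivity)
  have hn0 : (0 : ℝ) < n := lt_of_lt_of_le (by positivity) h1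
  have h3 : 1 / (n : ℝ) ≤ t := by
    rw [div_le_iff₀ hn0]
    rw [div_le_iff₀ ht] at h1
    linarith
  have hsub : thickening t (γ '' Icc 0 1) ⊆
      ⋃ k ∈ Finset.range (n + 1), closedBall (γ (k / n)) (((L : ℝ) + 1) * t) := by
    intro w hw
    rw [mem_thickening_iff] at hw
    obtain ⟨_, ⟨x, hx, rfl⟩, hwx⟩ := hw
    have h4 : 0 ≤ x * n := mul_nonneg hx.1 hn0.le
    simp only [Set.mem_iUnion, Finset.mem_range]
    refine ⟨⌊x * n⌋₊, ?_, ?_⟩
    · have h5 : ⌊x * n⌋₊ ≤ n := by
        apply Nat.floor_le_of_le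
        nlinarith [hx.2]
      omega
    · rw [mem_closedBall]
      have h5 : dist (γ x) (γ (⌊x * n⌋₊ / n)) ≤ L * t := by
        refine (hγ.dist_le_mul _ _).trans ?_
        have h6 : dist x (⌊x * n⌋₊ / n) ≤ 1 / n := by
          rw [Real.dist_eq, abs_le]
          have h7 := Nat.floor_le h4
          have h8 := Nat.lt_floor_add_one (x * n)
          constructor
          · have : (⌊x * n⌋₊ : ℝ) / n ≤ x := by rw [div_le_iff₀ hn0]; exact h7
            have h9 : 0 < 1 / (n : ℝ) := by positivity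
            linarith
          · have : x ≤ ((⌊x * n⌋₊ : ℝ) + 1) / n := by rw [le_div_iff₀ hn0]; exact h8.le
            rw [add_div] at this
            linarith
        gcongr
        exact h6.trans h3
      have h6 := dist_triangle w (γ x) (γ (⌊x * n⌋₊ / n))
      linarith
  calc volume (thickening t (γ '' Icc 0 1))
      ≤ volume (⋃ k ∈ Finset.range (n + 1), closedBall (γ (k / n)) (((L : ℝ) + 1) * t)) :=
        measure_mono hsub
    _ ≤ ∑ k ∈ Finset.range (n + 1), volume (closedBall (γ (k / n)) (((L : ℝ) + 1) * t)) :=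
        measure_biUnion_finset_le _ _
    _ = ENNReal.ofReal ((n + 1 : ℕ) * ((((L : ℝ) + 1) * t) ^ 2 * Real.pi)) := by
        have h1 : ∀ k : ℕ, volume (closedBall (γ (k / n)) (((L : ℝ) + 1) * t)) =
            ENNReal.ofReal ((((L : ℝ) + 1) * t) ^ 2 * Real.pi) := by
          intro k
          rw [Complex.volume_closedBall, ← ENNReal.ofReal_coe_nnreal,
            ← ENNReal.ofReal_pow (by positivity), ← ENNReal.ofReal_mul (by positivity),
            NNReal.coe_real_pi]
        simp only [h1, Finset.sum_const, Finset.card_range, nsmul_eq_mul]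
        rw [ENNReal.ofReal_mul (p := ((n + 1 : ℕ) : ℝ)) (by positivity), ENNReal.ofReal_natCast]
    _ ≤ _ := by
        apply ENNReal.ofReal_le_ofReal
        push_cast
        have h4 : ((n : ℝ) + 1) * t ≤ 3 := by
          have : (n : ℝ) * t ≤ (1 / t + 1) * t := by gcongr
          have h5 : (1 / t + 1) * t = 1 + t := by field_simp
          nlinarith
        have h5 : ((n : ℝ) + 1) * ((((L : ℝ) + 1) * t) ^ 2 * Real.pi) =
            (((n : ℝ) + 1) * t) * ((((L : ℝ) + 1) ^ 2 * Real.pi) * t) := by ring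
        rw [h5]
        have h6 : 0 ≤ (((L : ℝ) + 1) ^ 2 * Real.pi) * t := by positivity
        nlinarith

/-- the integral of the logarithm of the distance -/
theorem log_int {E : Set ℂ} (hEc : IsClosed E) (hEne : E.Nonempty) {C₀ : ℝ} (hC₀ : 0 ≤ C₀)
    (hA : ∀ t : ℝ, 0 < t → t ≤ 1 → volume (thickening t E) ≤ ENNReal.ofReal (C₀ * t))
    (z : ℂ) {s : ℝ} (hs : 0 < s) (hs1 : s ≤ 1) :
    ∫⁻ y in ball z s, ENNReal.ofReal (- Real.log (infDist y E)) ≤
      ENNReal.ofReal (Real.pi * s ^ 2 * (2 * (- Real.log s) + C₀)) := by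
  set t : ℕ → ℝ := fun j => s ^ 2 * (1 / 2) ^ j with ht
  have hl2 : 0 ≤ Real.log 2 := Real.log_nonneg (by norm_num)
  have hls : 0 ≤ - Real.log s := by
    have := Real.log_nonpos hs.le hs1
    linarith
  have ht0 : ∀ j, 0 < t j := fun j => by positivity
  have ht1 : ∀ j, t j ≤ 1 := fun j => by
    have h1 : s ^ 2 ≤ 1 := pow_le_one₀ hs.le hs1
    have h2 : (1 / 2 : ℝ) ^ j ≤ 1 := pow_le_one₀ (by norm_num) (by norm_num)
    calc s ^ 2 * (1 / 2) ^ j ≤ 1 * 1 := by gcongr
      _ = 1 := by norm_num
  -- the pointwise bound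
  have hpt : ∀ y ∉ E, ENNReal.ofReal (- Real.log (infDist y E)) ≤
      ENNReal.ofReal (2 * (- Real.log s)) +
        ∑' j, (thickening (t j) E).indicator (fun _ => ENNReal.ofReal (Real.log 2)) y := by
    intro y hy
    have hd : 0 < infDist y E := (hEc.notMem_iff_infDist_pos hEne).1 hy
    set d := infDist y E with hdd
    have hx0 : 0 < s ^ 2 / d := by positivity
    obtain ⟨N, hN1, hN2⟩ : ∃ N : ℕ, s ^ 2 / d ≤ 2 ^ N ∧ ∀ j < N, (2 : ℝ) ^ j < s ^ 2 / d := by
      classical
      have hex : ∃ N : ℕ, s ^ 2 / d ≤ 2 ^ N := by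
        obtain ⟨N, hN⟩ := pow_unbounded_of_one_lt (s ^ 2 / d) (show (1 : ℝ) < 2 by norm_num)
        exact ⟨N, hN.le⟩
      exact ⟨Nat.find hex, Nat.find_spec hex, fun j hj => not_le.1 (Nat.find_min hex hj)⟩
    have h1 : - Real.log d ≤ 2 * (- Real.log s) + N * Real.log 2 := by
      have h2 := Real.log_le_log hx0 hN1
      rw [Real.log_pow, Real.log_div (by positivity) hd.ne', Real.log_pow] at h2
      push_cast at h2
      linarith
    refine (ENNReal.ofReal_le_ofReal h1).trans ?_
    refine ENNReal.ofReal_add_le.trans ?_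
    gcongr
    calc ENNReal.ofReal (N * Real.log 2) = ∑ j ∈ Finset.range N, ENNReal.ofReal (Real.log 2) := by
          rw [Finset.sum_const, Finset.card_range, nsmul_eq_mul,
            ENNReal.ofReal_mul (by positivity), ENNReal.ofReal_natCast]
      _ = ∑ j ∈ Finset.range N,
          (thickening (t j) E).indicator (fun _ => ENNReal.ofReal (Real.log 2)) y := by
          refine Finset.sum_congr rfl fun j hj => ?_
          rw [indicator_of_mem]
          rw [mem_thickening_iff_infDist_lt hEne]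
          have h3 := hN2 j (Finset.mem_range.1 hj)
          rw [lt_div_iff₀ hd] at h3
          rw [ht]
          simp only
          rw [one_div, inv_pow, ← div_eq_mul_inv, lt_div_iff₀ (by positivity)]
          linarith
      _ ≤ _ := ENNReal.sum_le_tsum _
  -- null set
  have hE0 : volume E = 0 := by
    have h1 : ∀ j, volume E ≤ ENNReal.ofReal (C₀ * t j) := fun j =>
      (measure_mono (self_subset_thickening (ht0 j) E)).trans (hA _ (ht0 j) (ht1 j))
    have h2 : Tendsto (fun j => ENNReal.ofReal (C₀ * t j)) atTop (𝓝 0) := by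
      have h3 : Tendsto (fun j => C₀ * t j) atTop (𝓝 0) := by
        have h4 := (tendsto_pow_atTop_nhds_zero_of_lt_one (r := (1 / 2 : ℝ)) (by norm_num)
          (by norm_num)).const_mul (C₀ * s ^ 2)
        rw [mul_zero] at h4
        refine h4.congr fun j => ?_
        rw [ht]
        ring
      have h5 := (ENNReal.continuous_ofReal.tendsto 0).comp h3
      rw [ENNReal.ofReal_zero] at h5
      exact h5
    exact le_antisymm (ge_of_tendsto h2 (Eventually.of_forall h1)) zero_le
  have hae : ∀ᵐ y ∂(volume.restrict (ball z s)), y ∉ E :=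
    ae_restrict_of_ae (measure_eq_zero_iff_ae_notMem.mp hE0)
  calc ∫⁻ y in ball z s, ENNReal.ofReal (- Real.log (infDist y E))
      ≤ ∫⁻ y in ball z s, (ENNReal.ofReal (2 * (- Real.log s)) +
        ∑' j, (thickening (t j) E).indicator (fun _ => ENNReal.ofReal (Real.log 2)) y) := by
        refine lintegral_mono_ae ?_
        filter_upwards [hae] with y hy
        exact hpt y hy
    _ = ENNReal.ofReal (2 * (- Real.log s)) * volume (ball z s) +
        ∑' j, ∫⁻ y in ball z s,
          (thickening (t j) E).indicator (fun _ => ENNReal.ofReal (Real.log 2)) y := by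
        rw [lintegral_add_left measurable_const, setLIntegral_const, lintegral_tsum]
        intro j
        exact (measurable_const.indicator isOpen_thickening.measurableSet).aemeasurable
    _ ≤ ENNReal.ofReal (2 * (- Real.log s)) * volume (ball z s) +
        ∑' j, ENNReal.ofReal (Real.log 2 * (C₀ * s ^ 2) * (1 / 2) ^ j) := by
        gcongr with j
        calc ∫⁻ y in ball z s,
              (thickening (t j) E).indicator (fun _ => ENNReal.ofReal (Real.log 2)) y
            ≤ ∫⁻ y, (thickening (t j) E).indicator (fun _ => ENNReal.ofReal (Real.log 2)) y :=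
              setLIntegral_le_lintegral _ _
          _ = ENNReal.ofReal (Real.log 2) * volume (thickening (t j) E) := by
              rw [lintegral_indicator isOpen_thickening.measurableSet, setLIntegral_const]
          _ ≤ ENNReal.ofReal (Real.log 2) * ENNReal.ofReal (C₀ * t j) := by
              gcongr
              exact hA _ (ht0 j) (ht1 j)
          _ = _ := by
              rw [← ENNReal.ofReal_mul hl2]
              congr 1
              rw [ht]
              ring
    _ = ENNReal.ofReal (2 * (- Real.log s)) * volume (ball z s) +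
        ENNReal.ofReal (Real.log 2 * (C₀ * s ^ 2) * 2) := by
        congr 1
        rw [← ENNReal.ofReal_tsum_of_nonneg (fun j => by positivity)
          (summable_geometric_two.mul_left _), tsum_mul_left, tsum_geometric_two]
    _ ≤ _ := by
        rw [vol_ball z hs.le, ← ENNReal.ofReal_mul (by positivity),
          ← ENNReal.ofReal_add (by positivity) (by positivity)]
        apply ENNReal.ofReal_le_ofReal
        have h1 : Real.log 2 ≤ 1 := by
          have := Real.log_two_lt_d9
          linarith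
        have h2 : (2 : ℝ) ≤ Real.pi := Real.two_le_pi
        have h3 : Real.log 2 * (C₀ * s ^ 2) * 2 ≤ 1 * (C₀ * s ^ 2) * Real.pi := by gcongr
        nlinarith

/-- the hypothesis on the set: areas of the neighbourhoods -/
def Thin (E : Set ℂ) (C₀ : ℝ) : Prop := IsClosed E ∧ E.Nonempty ∧ 0 ≤ C₀ ∧
  ∀ t : ℝ, 0 < t → t ≤ 1 → volume (thickening t E) ≤ ENNReal.ofReal (C₀ * t)

theorem Thin.null {E : Set ℂ} {C₀ : ℝ} (h : Thin E C₀) : volume E = 0 := by
  have h1 : ∀ᶠ t : ℝ in 𝓝[>] 0, volume E ≤ ENNReal.ofReal (C₀ * t) := by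
    filter_upwards [self_mem_nhdsWithin, Ioo_mem_nhdsGT (show (0 : ℝ) < 1 by norm_num)] with t ht ht1
    exact (measure_mono (self_subset_thickening ht E)).trans (h.2.2.2 t ht ht1.2.le)
  have h2 : Tendsto (fun t : ℝ => ENNReal.ofReal (C₀ * t)) (𝓝[>] 0) (𝓝 0) := by
    have h3 : Continuous fun t : ℝ => ENNReal.ofReal (C₀ * t) :=
      ENNReal.continuous_ofReal.comp (by fun_prop)
    have h4 := h3.tendsto 0
    rw [mul_zero, ENNReal.ofReal_zero] at h4
    exact h4.mono_left nhdsWithin_le_nhds
  exact le_antisymm (ge_of_tendsto h2 h1) zero_le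

/-- scalar functions -/
theorem growth_scalar {E : Set ℂ} {C₀ : ℝ} (hE : Thin E C₀) {f : ℂ → ℂ} {z : ℂ} {s C : ℝ} {k : ℕ}
    (hs : 0 < s) (hs1 : s ≤ 1) (hf : DifferentiableOn ℂ f (ball z s))
    (hbd : ∃ B : ℝ, ∀ y ∈ ball z s, ‖f y‖ ≤ B) (hC : 1 ≤ C)
    (hg : ∀ y ∈ ball z s, y ∉ E → ‖f y‖ ≤ C / infDist y E ^ k) :
    ‖f z‖ ≤ C * Real.exp (k * C₀) / s ^ (2 * k) := by
  rcases eq_or_ne (f z) 0 with h0 | h0
  · rw [h0, norm_zero]; positivity
  obtain ⟨B, hB⟩ := hbd
  set M : ℝ := max (Real.log (max B 1)) 0 with hM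
  have hM0 : 0 ≤ M := le_max_right _ _
  have hMB : ∀ y ∈ ball z s, ‖f y‖ ≤ Real.exp M := by
    intro y hy
    refine (hB y hy).trans ((le_max_left B 1).trans ?_)
    rw [← Real.log_le_iff_le_exp (lt_of_lt_of_le one_pos (le_max_right B 1))]
    exact le_max_left _ _
  have h1 := area hs hf hMB hM0 h0
  have h3 := zeros_null hs hf h0
  have h4 : ∀ᵐ y ∂(volume.restrict (ball z s)), y ∈ ball z s :=
    ae_restrict_mem isOpen_ball.measurableSet
  have h5 : ∀ᵐ y ∂(volume.restrict (ball z s)), y ∉ E :=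
    ae_restrict_of_ae (measure_eq_zero_iff_ae_notMem.mp hE.null)
  have hlC : 0 ≤ Real.log C := Real.log_nonneg hC
  have h6 : ∫⁻ _ in ball z s, ENNReal.ofReal M ≤
      ∫⁻ y in ball z s, (uu f M y + (ENNReal.ofReal (Real.log C) +
        ENNReal.ofReal k * ENNReal.ofReal (- Real.log (infDist y E)))) := by
    refine lintegral_mono_ae ?_
    filter_upwards [h3, h4, h5] with y hy1 hy2 hy3
    have hd : 0 < infDist y E := (hE.1.notMem_iff_infDist_pos hE.2.1).1 hy3
    have e1 := hg y hy2 hy3
    have e2 : Real.log ‖f y‖ ≤ Real.log C + k * (- Real.log (infDist y E)) := by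
      have e3 := Real.log_le_log (norm_pos_iff.2 hy1) e1
      rw [Real.log_div (by positivity) (by positivity), Real.log_pow] at e3
      linarith
    unfold uu
    rw [← ENNReal.ofReal_mul (by positivity)]
    refine le_trans (ENNReal.ofReal_le_ofReal ?_) (ENNReal.ofReal_add_le.trans
      (add_le_add_right ENNReal.ofReal_add_le _))
    linarith
  have h7 : AEMeasurable (uu f M) (volume.restrict (ball z s)) := by
    unfold uu
    exact ENNReal.measurable_ofReal.comp_aemeasurable
      (aemeasurable_const.sub (Real.measurable_log.comp_aemeasurable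
        (hf.continuousOn.aemeasurable isOpen_ball.measurableSet).norm))
  rw [lintegral_const, Measure.restrict_apply_univ, lintegral_add_left' h7,
    lintegral_add_left measurable_const, setLIntegral_const,
    lintegral_const_mul' _ _ ENNReal.ofReal_ne_top] at h6
  have h8 := log_int hE.1 hE.2.1 hE.2.2.1 hE.2.2.2 z hs hs1
  have h9 := h6.trans (add_le_add h1 (add_le_add_right (mul_le_mul_right h8 _) _))
  have hfz : Real.log ‖f z‖ ≤ M :=
    (Real.log_le_iff_le_exp (norm_pos_iff.2 h0)).2 (hMB z (mem_ball_self hs))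
  have hpi := Real.pi_pos
  have hls : 0 ≤ - Real.log s := by
    have := Real.log_nonpos hs.le hs1
    linarith
  have hC₀ := hE.2.2.1
  have hq1 : 0 ≤ Real.pi * s ^ 2 * (M - Real.log ‖f z‖) :=
    mul_nonneg (by positivity) (by linarith)
  rw [vol_ball z hs.le, ← ENNReal.ofReal_mul hM0, ← ENNReal.ofReal_mul hlC,
    ← ENNReal.ofReal_mul (by positivity), ← ENNReal.ofReal_add (by positivity) (by positivity),
    ← ENNReal.ofReal_add hq1 (by positivity)] at h9
  have h10 := (ENNReal.ofReal_le_ofReal_iff (by positivity)).1 h9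
  have h11 : Real.pi * s ^ 2 * Real.log ‖f z‖ ≤
      Real.pi * s ^ 2 * (Real.log C + k * (2 * (- Real.log s) + C₀)) := by
    nlinarith
  have h12 := le_of_mul_le_mul_left h11 (by positivity)
  have h13 : Real.log C + k * (2 * (- Real.log s) + C₀) =
      Real.log (C * Real.exp (k * C₀) / s ^ (2 * k)) := by
    rw [Real.log_div (by positivity) (by positivity), Real.log_mul (by positivity) (by positivity),
      Real.log_exp, Real.log_pow]
    push_cast
    ring
  rw [h13] at h12
  exact (Real.log_le_log_iff (norm_pos_iff.2 h0) (by positivity)).1 h12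

/-- vector valued functions -/
theorem growth_vec {E : Set ℂ} {C₀ : ℝ} (hE : Thin E C₀) {F : Type} [NormedAddCommGroup F]
    [NormedSpace ℂ F] {f : ℂ → F} {z : ℂ} {s C : ℝ} {k : ℕ}
    (hs : 0 < s) (hs1 : s ≤ 1) (hf : DifferentiableOn ℂ f (ball z s))
    (hbd : ∃ B : ℝ, ∀ y ∈ ball z s, ‖f y‖ ≤ B) (hC : 1 ≤ C)
    (hg : ∀ y ∈ ball z s, y ∉ E → ‖f y‖ ≤ C / infDist y E ^ k) :
    ‖f z‖ ≤ C * Real.exp (k * C₀) / s ^ (2 * k) := by
  obtain ⟨g, hg1, hg2⟩ := exists_dual_vector'' ℂ (f z)
  have hgn : ∀ v, ‖g v‖ ≤ ‖v‖ := fun v => by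
    refine (g.le_opNorm v).trans ?_
    have := norm_nonneg v
    nlinarith
  obtain ⟨B, hB⟩ := hbd
  have h1 := growth_scalar hE (f := fun y => g (f y)) hs hs1
    (g.differentiable.comp_differentiableOn hf) ⟨B, fun y hy => (hgn _).trans (hB y hy)⟩ hC
    (fun y hy hyE => (hgn _).trans (hg y hy hyE))
  rw [hg2] at h1
  simpa using h1

/-- Lipschitz curves are thin -/
theorem curve_thin (γ : ℝ → ℂ) (L : NNReal) (hγ : LipschitzWith L γ) :
    ∃ C₀ : ℝ, Thin (γ '' Icc 0 1) C₀ := by
  obtain ⟨C₀, h0, h1⟩ := curve_area γ L hγ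
  exact ⟨C₀, (isCompact_Icc.image hγ.continuous).isClosed, ⟨γ 0, 0, by simp, rfl⟩, h0, h1⟩

end Pool.Agent.H259.RR
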