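import Pool.Agent.H259.RR.Good

/-!
# The limit: operators in the bicommutant with polynomial growth are normal
-/

set_option autoImplicit false
set_option linter.unusedSectionVars false

open MeasureTheory Filter Topology Set Metric Polynomial
open scoped NNReal ENNReal InnerProductSpace

namespace Pool.Agent.H259.RR

open Pool.Agent.W402.HI Pool.Agent.W706.HIR Pool.Agent.K4H63.RC Pool.Agent.K4H63.RD

variable {H : Type} [NormedAddCommGroup H] [InnerProductSpace ℂ H] [CompleteSpace H]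
variable {T A : H →L[ℂ] H}

/-- norms of normal operators and their powers -/
theorem normal_norm {N : H →L[ℂ] H} (hN : IsStarNormal N) {K ρ : ℝ} (hρ : 0 < ρ)
    (h : ∀ n : ℕ, ‖N ^ n‖ ≤ K * ρ ^ n) : ‖N‖ ≤ ρ := by
  by_contra hcon
  push Not at hcon
  obtain ⟨ρ', h1, h2⟩ := exists_between hcon
  have hlim := spectrum.pow_norm_pow_one_div_tendsto_nhds_spectralRadius N
  rw [IsStarNormal.spectralRadius_eq_nnnorm N] at hlim
  have h3 : ENNReal.ofReal ρ' < (‖N‖₊ : ENNReal) := by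
    rw [← enorm_eq_nnnorm, ← ofReal_norm_eq_enorm]
    exact (ENNReal.ofReal_lt_ofReal_iff (hρ.trans hcon)).2 h2
  have hρ' : 0 < ρ' := hρ.trans h1
  have h4 := hlim.eventually_const_lt h3
  have h5 : ∀ᶠ n : ℕ in atTop, K < (ρ' / ρ) ^ n := by
    have h6 := tendsto_pow_atTop_atTop_of_one_lt (r := ρ' / ρ) ((one_lt_div hρ).2 h1)
    exact h6.eventually_gt_atTop K
  obtain ⟨n, hn1, hn2, hn0⟩ := (h4.and (h5.and (eventually_gt_atTop 0))).exists
  have h6 : ρ' < ‖N ^ n‖ ^ (1 / n : ℝ) := (ENNReal.ofReal_lt_ofReal_iff_of_nonneg hρ'.le).1 hn1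
  have h7 : ρ' ^ n < (‖N ^ n‖ ^ (1 / n : ℝ)) ^ n :=
    pow_lt_pow_left₀ h6 hρ'.le hn0.ne'
  rw [one_div, Real.rpow_inv_natCast_pow (norm_nonneg _) hn0.ne'] at h7
  have h8 : K * ρ ^ n < ρ' ^ n := by
    rw [div_pow, lt_div_iff₀ (by positivity)] at hn2
    exact hn2
  linarith [h n]

/-- two approximations are close -/
theorem close (hA : Cent T A) {D D' : H →L[ℂ] H} (hD : PP T D) (hD' : PP T D') {r r' M : ℝ}
    (hr : 0 < r) (hr' : 0 < r') (hM : 0 ≤ M)
    (h : ∀ n, ‖(A - D) ^ n‖ ≤ M * r ^ n) (h' : ∀ n, ‖(A - D') ^ n‖ ≤ M * r' ^ n) :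
    ‖D - D'‖ ≤ r + r' := by
  have hn : IsStarNormal (D - D') := (hD.sub hD').normal
  refine normal_norm hn (K := M * M) (by positivity) fun n => ?_
  have hc : Commute (A - D') (-(A - D)) := by
    have h1 : Cent T (A - D') := fun Q hQ => by
      rw [mul_sub, sub_mul, hA Q hQ, hD'.1 Q hQ]
    have h2 : Cent T (-(A - D)) := fun Q hQ => by
      rw [mul_neg, neg_mul, mul_sub, sub_mul, hA Q hQ, hD.1 Q hQ]
    exact cent_comm h1 h2
  have e1 : D - D' = (A - D') + -(A - D) := by abel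
  rw [e1, hc.add_pow n]
  refine (norm_sum_le _ _).trans ?_
  have e2 : M * M * (r + r') ^ n =
      ∑ m ∈ Finset.range (n + 1), (M * r' ^ m) * (M * r ^ (n - m)) * (n.choose m : ℝ) := by
    rw [add_comm r r', add_pow, Finset.mul_sum]
    refine Finset.sum_congr rfl fun m _ => ?_
    ring
  rw [e2]
  refine Finset.sum_le_sum fun m _ => ?_
  have e3 : ‖((n.choose m : ℕ) : H →L[ℂ] H)‖ ≤ (n.choose m : ℝ) := by
    rw [← nsmul_one]
    refine (norm_nsmul_le).trans ?_
    have : ‖(1 : H →L[ℂ] H)‖ ≤ 1 := ContinuousLinearMap.norm_id_le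
    have h0 : (0 : ℝ) ≤ (n.choose m : ℝ) := by positivity
    nlinarith
  have e4 : ‖(-(A - D)) ^ (n - m)‖ ≤ M * r ^ (n - m) := by
    rw [neg_pow]
    refine (norm_mul_le _ _).trans ?_
    have e5 : ‖(-1 : H →L[ℂ] H) ^ (n - m)‖ ≤ 1 := by
      rcases neg_one_pow_eq_or (H →L[ℂ] H) (n - m) with h5 | h5
      · rw [h5]; exact ContinuousLinearMap.norm_id_le
      · rw [h5, norm_neg]; exact ContinuousLinearMap.norm_id_le
    calc ‖(-1 : H →L[ℂ] H) ^ (n - m)‖ * ‖(A - D) ^ (n - m)‖ ≤ 1 * (M * r ^ (n - m)) := by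
          gcongr
          exact h _
      _ = _ := one_mul _
  calc ‖(A - D') ^ m * (-(A - D)) ^ (n - m) * ((n.choose m : ℕ) : H →L[ℂ] H)‖
      ≤ ‖(A - D') ^ m‖ * ‖(-(A - D)) ^ (n - m)‖ * ‖((n.choose m : ℕ) : H →L[ℂ] H)‖ := by
        refine (norm_mul_le _ _).trans ?_
        gcongr
        exact norm_mul_le _ _
    _ ≤ (M * r' ^ m) * (M * r ^ (n - m)) * (n.choose m : ℝ) := by
        gcongr
        exact h' _

/-- nilpotent operators in the bicommutant of a reductive operator vanish -/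
theorem nil_zero (hred : Reductive T) {Q : H →L[ℂ] H} (hQ : Cent T Q) {m : ℕ} (h : Q ^ m = 0) :
    Q = 0 := by
  set V : Submodule ℂ H := LinearMap.ker (Q : H →ₗ[ℂ] H) with hV
  have hVH : Hyper T V := hQ.ker
  have hVo : Hyper T Vᗮ := hyper_orth hred hVH
  have hVcs : CompleteSpace V := hVH.1.completeSpace_coe
  have h1 : ∀ n : ℕ, ∀ x ∈ Vᗮ, (Q ^ n) x = 0 → x = 0 := by
    intro n
    induction n with
    | zero => intro x _ hx; exact hx
    | succ n ih =>
      intro x hx hxn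
      have h2 : Q x ∈ Vᗮ := hQ.map hred hVo x hx
      have h3 : (Q ^ n) (Q x) = 0 := by
        rw [pow_succ] at hxn
        exact hxn
      have h4 := ih _ h2 h3
      have h5 : x ∈ V := by rw [hV, LinearMap.mem_ker]; exact h4
      have h6 : ⟪x, x⟫_ℂ = 0 := (Submodule.mem_orthogonal _ _).1 hx _ h5
      exact inner_self_eq_zero.1 h6
  have h2 : Vᗮ = ⊥ := by
    rw [eq_bot_iff]
    intro x hx
    rw [Submodule.mem_bot]
    exact h1 m x hx (by rw [h]; rfl)
  have h3 : V = ⊤ := Submodule.orthogonal_eq_bot_iff.1 h2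
  ext x
  have h4 : x ∈ V := by rw [h3]; trivial
  rw [hV, LinearMap.mem_ker] at h4
  exact h4

theorem isClosed_PP (T : H →L[ℂ] H) : IsClosed {D : H →L[ℂ] H | PP T D} := by
  have h1 : ∀ f : (H →L[ℂ] H) → (H →L[ℂ] H), Continuous f →
      IsClosed {D : H →L[ℂ] H | Cent T (f D)} := by
    intro f hf
    have : {D : H →L[ℂ] H | Cent T (f D)} =
        ⋂ (Q : H →L[ℂ] H) (_ : Q * T = T * Q), {D | Q * f D = f D * Q} := by
      ext D
      simp only [Set.mem_setOf_eq, Set.mem_iInter]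
      rfl
    rw [this]
    refine isClosed_iInter fun Q => isClosed_iInter fun _ => ?_
    exact isClosed_eq (continuous_const.mul hf) (hf.mul continuous_const)
  exact (h1 (fun D => D) continuous_id).inter (h1 (fun D => star D) continuous_star)

/-- **operators in the bicommutant, with polynomial growth near a curve, are normal** -/
theorem cent_normal {γ : ℝ → ℂ} {L₀ : ℝ≥0} (hγ : LipschitzWith L₀ γ)
    (hAs : ∀ z, z ∉ γ '' Set.Icc 0 1 → z ∈ resolventSet ℂ A)
    (hAg : ∃ (C : ℝ) (k : ℕ), ∀ z, z ∉ γ '' Set.Icc 0 1 → infDist z (γ '' Set.Icc 0 1) ≤ 1 →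
      ‖resolvent A z‖ ≤ C / infDist z (γ '' Set.Icc 0 1) ^ k)
    (hred : Reductive T) (hA : Cent T A) : IsStarNormal A := by
  obtain ⟨C, k, hC, hgood⟩ := good_top hγ hAs hAg hred hA
  set r : ℕ → ℝ := fun j => (1 / 4) * (1 / 2) ^ j with hr
  have hr0 : ∀ j, 0 < r j := fun j => by positivity
  have hr1 : ∀ j, r j ≤ 1 / 4 := fun j => by
    have : (1 / 2 : ℝ) ^ j ≤ 1 := pow_le_one₀ (by norm_num) (by norm_num)
    rw [hr]
    simp only
    linarith
  have hD : ∀ j, ∃ D, PP T D ∧ ∀ n, ‖(A - D) ^ n‖ ≤ C / (r j) ^ (2 * k) * (r j) ^ (n + 1) := by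
    intro j
    obtain ⟨D, h1, h2⟩ := hgood (r j) (hr0 j) (by linarith [hr1 j])
    have := hr0 j
    exact ⟨D, h1, fun n => ContinuousLinearMap.opNorm_le_bound _ (by positivity)
      fun x => h2 n x trivial⟩
  choose D hD1 hD2 using hD
  have hclose : ∀ i j, ‖D i - D j‖ ≤ r i + r j := by
    intro i j
    have hi := hr0 i
    have hj := hr0 j
    refine close hA (hD1 i) (hD1 j) (M := C / (r i) ^ (2 * k) * r i + C / (r j) ^ (2 * k) * r j)
      (hr0 i) (hr0 j) (by positivity) ?_ ?_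
    · intro n
      refine (hD2 i n).trans ?_
      have : 0 ≤ C / r j ^ (2 * k) * r j * r i ^ n := by positivity
      rw [pow_succ]
      nlinarith
    · intro n
      refine (hD2 j n).trans ?_
      have : 0 ≤ C / r i ^ (2 * k) * r i * r j ^ n := by positivity
      rw [pow_succ]
      nlinarith
  have hrlim : Tendsto r atTop (𝓝 0) := by
    have := (tendsto_pow_atTop_nhds_zero_of_lt_one (r := (1 / 2 : ℝ)) (by norm_num)
      (by norm_num)).const_mul (1 / 4)
    rwa [mul_zero] at this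
  have hcau : CauchySeq D := by
    refine cauchySeq_of_le_geometric_two (C := 1) (fun j => ?_)
    rw [dist_eq_norm]
    refine (hclose j (j + 1)).trans ?_
    rw [hr]
    simp only
    rw [pow_succ, one_div_pow]
    have : (0 : ℝ) < 1 / 2 ^ j := by positivity
    have h2 : (1 : ℝ) / 2 / 2 ^ j = (1 / 2) * (1 / 2 ^ j) := by ring
    rw [h2]
    linarith
  obtain ⟨D₀, hD₀⟩ := cauchySeq_tendsto_of_complete hcau
  have hPP : PP T D₀ := (isClosed_PP T).mem_of_tendsto hD₀ (Eventually.of_forall hD1)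
  have hnil : (A - D₀) ^ (2 * k) = 0 := by
    have h1 : Tendsto (fun j => (A - D j) ^ (2 * k)) atTop (𝓝 ((A - D₀) ^ (2 * k))) :=
      (tendsto_const_nhds.sub hD₀).pow _
    have h2 : Tendsto (fun j => (A - D j) ^ (2 * k)) atTop (𝓝 0) := by
      rw [tendsto_zero_iff_norm_tendsto_zero]
      have h3 : Tendsto (fun j => C * r j) atTop (𝓝 0) := by
        have := hrlim.const_mul C
        rwa [mul_zero] at this
      refine squeeze_zero (fun j => norm_nonneg _) (fun j => ?_) h3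
      refine (hD2 j (2 * k)).trans (le_of_eq ?_)
      have := hr0 j
      rw [pow_succ]
      field_simp
    exact tendsto_nhds_unique h1 h2
  have hQ : Cent T (A - D₀) := fun Q hQ => by
    rw [mul_sub, sub_mul, hA Q hQ, hPP.1 Q hQ]
  have h0 := nil_zero hred hQ hnil
  rw [sub_eq_zero.1 h0]
  exact hPP.normal

end Pool.Agent.H259.RR
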