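import Pool.Agent.H259.RR.L1

/-!
# Powers of operators whose resolvent grows polynomially near a curve
-/

set_option autoImplicit false
set_option linter.unusedSectionVars false

open MeasureTheory Filter Topology Set Metric
open scoped NNReal ENNReal

namespace Pool.Agent.H259.RR

variable {X : Type} [NormedAddCommGroup X] [NormedSpace ℂ X] [CompleteSpace X]
variable {F : Type} [NormedAddCommGroup F] [NormedSpace ℂ F] [CompleteSpace F]

/-- powers and resolvents -/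
theorem pow_bound (Φ : (X →L[ℂ] X) →L[ℂ] F) {B : X →L[ℂ] X} {r M : ℝ} (hr : 0 < r)
    (hB : ∀ z ∈ spectrum ℂ B, ‖z‖ < r) (hM : ∀ z : ℂ, ‖z‖ = r → ‖Φ (resolvent B z)‖ ≤ M) (n : ℕ) :
    ‖Φ (B ^ n)‖ ≤ M * r ^ (n + 1) := by
  set g : ℂ → F := fun w => Φ (Ring.inverse (1 - w • B)) with hg
  have hunit : ∀ w ∈ closedBall (0 : ℂ) r⁻¹, IsUnit (1 - w • B) ∧
      (w ≠ 0 → Ring.inverse (1 - w • B) = w⁻¹ • resolvent B w⁻¹) := by
    intro w hw
    rcases eq_or_ne w 0 with rfl | hw0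
    · refine ⟨by rw [zero_smul, sub_zero]; exact isUnit_one, fun h => absurd rfl h⟩
    · have h1 : r ≤ ‖w⁻¹‖ := by
        rw [mem_closedBall_zero_iff] at hw
        rw [norm_inv]
        exact (le_inv_comm₀ hr (norm_pos_iff.2 hw0)).2 hw
      have h2 : IsUnit (algebraMap ℂ (X →L[ℂ] X) w⁻¹ - B) := by
        by_contra h
        exact absurd (hB w⁻¹ h) (not_lt.2 h1)
      obtain ⟨u, hu⟩ := h2
      have h3 : 1 - w • B = w • (u : X →L[ℂ] X) := by
        rw [hu, smul_sub, Algebra.algebraMap_eq_smul_one, smul_smul, mul_inv_cancel₀ hw0, one_smul]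
      have h4 : (w • (u : X →L[ℂ] X)) * (w⁻¹ • ((u⁻¹ : (X →L[ℂ] X)ˣ) : X →L[ℂ] X)) = 1 := by
        rw [smul_mul_smul_comm, mul_inv_cancel₀ hw0, Units.mul_inv, one_smul]
      have h5 : (w⁻¹ • ((u⁻¹ : (X →L[ℂ] X)ˣ) : X →L[ℂ] X)) * (w • (u : X →L[ℂ] X)) = 1 := by
        rw [smul_mul_smul_comm, inv_mul_cancel₀ hw0, Units.inv_mul, one_smul]
      have h6 : IsUnit (1 - w • B) := ⟨⟨_, _, h4, h5⟩, by rw [h3]⟩
      refine ⟨h6, fun _ => ?_⟩
      have h7 : Ring.inverse (1 - w • B) * (w • (u : X →L[ℂ] X)) = 1 := by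
        rw [← h3]; exact Ring.inverse_mul_cancel _ h6
      have h8 : resolvent B w⁻¹ = ((u⁻¹ : (X →L[ℂ] X)ˣ) : X →L[ℂ] X) := by
        unfold resolvent
        rw [← hu, Ring.inverse_unit]
      rw [h8]
      calc Ring.inverse (1 - w • B) = Ring.inverse (1 - w • B) * ((w • (u : X →L[ℂ] X)) *
            (w⁻¹ • ((u⁻¹ : (X →L[ℂ] X)ˣ) : X →L[ℂ] X))) := by rw [h4, mul_one]
        _ = _ := by rw [← mul_assoc, h7, one_mul]
  have hri : (0 : ℝ) < r⁻¹ := by positivity
  set R : ℝ≥0 := ⟨r⁻¹, hri.le⟩ with hR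
  have hR0 : 0 < R := by rw [← NNReal.coe_pos]; exact hri
  have hdiff : DifferentiableOn ℂ g (closedBall 0 R) := by
    intro w hw
    have h1 : DifferentiableAt ℂ (fun w : ℂ => Ring.inverse (1 - w • B)) w := by
      have h2 := differentiableAt_inverse (𝕜 := ℂ) (hunit w hw).1
      have h3 : DifferentiableAt ℂ (fun w : ℂ => 1 - w • B) w := by fun_prop
      exact DifferentiableAt.comp w h2 h3
    exact ((Φ.differentiableAt).comp w h1).differentiableWithinAt
  have h1 := hdiff.hasFPowerSeriesOnBall hR0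
  have h2 := Φ.comp_hasFPowerSeriesOnBall
    (spectrum.hasFPowerSeriesOnBall_inverse_one_sub_smul ℂ B)
  have h3 := h2.hasFPowerSeriesAt.eq_formalMultilinearSeries h1.hasFPowerSeriesAt
  have h4 : Φ (B ^ n) = cauchyPowerSeries g 0 R n (fun _ => 1) := by
    rw [← h3]
    change Φ (B ^ n) = Φ (ContinuousMultilinearMap.mkPiRing ℂ (Fin n) (B ^ n) fun _ => 1)
    rw [ContinuousMultilinearMap.mkPiRing_apply]
    simp
  have h5 : ‖Φ (B ^ n)‖ ≤ ‖cauchyPowerSeries g 0 R n‖ := by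
    rw [h4]
    refine ((cauchyPowerSeries g 0 R n).le_opNorm _).trans ?_
    simp
  refine h5.trans ((norm_cauchyPowerSeries_le g 0 R n).trans ?_)
  have h6 : ∀ θ : ℝ, ‖g (circleMap 0 R θ)‖ ≤ r * M := by
    intro θ
    have h7 : ‖circleMap 0 (R : ℝ) θ‖ = r⁻¹ := by
      rw [norm_circleMap_zero]
      exact abs_of_pos hri
    have h8 : circleMap 0 (R : ℝ) θ ≠ 0 := by
      rw [← norm_pos_iff, h7]; exact hri
    have h9 := (hunit (circleMap 0 (R : ℝ) θ) (by rw [mem_closedBall_zero_iff, h7])).2 h8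
    rw [hg]
    simp only
    rw [h9, map_smul, norm_smul, norm_inv, h7, inv_inv]
    gcongr
    apply hM
    rw [norm_inv, h7, inv_inv]
  have hM0 : 0 ≤ r * M := (norm_nonneg _).trans (h6 0)
  have h7 : ∫ θ in (0 : ℝ)..2 * Real.pi, ‖g (circleMap 0 R θ)‖ ≤ 2 * Real.pi * (r * M) := by
    have h8 := intervalIntegral.norm_integral_le_of_norm_le_const (a := 0) (b := 2 * Real.pi)
      (f := fun θ => ‖g (circleMap 0 R θ)‖) (C := r * M) (fun θ _ => by
        rw [norm_norm]; exact h6 θ)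
    rw [sub_zero, abs_of_pos (by positivity)] at h8
    calc _ ≤ ‖∫ θ in (0 : ℝ)..2 * Real.pi, ‖g (circleMap 0 R θ)‖‖ := le_abs_self _
      _ ≤ r * M * (2 * Real.pi) := h8
      _ = _ := by ring
  have h8 : |(R : ℝ)|⁻¹ = r := by
    have h9 : |(R : ℝ)| = r⁻¹ := abs_of_pos hri
    rw [h9, inv_inv]
  rw [h8]
  calc ((2 * Real.pi)⁻¹ * ∫ θ in (0 : ℝ)..2 * Real.pi, ‖g (circleMap 0 R θ)‖) * r ^ n
      ≤ ((2 * Real.pi)⁻¹ * (2 * Real.pi * (r * M))) * r ^ n := by gcongr
    _ = M * r ^ (n + 1) := by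
        rw [← mul_assoc, inv_mul_cancel₀ (by positivity), one_mul]
        ring

/-- the resolvent of a translate -/
theorem resolvent_shift (A : X →L[ℂ] X) (c z : ℂ) :
    resolvent (A - algebraMap ℂ (X →L[ℂ] X) c) z = resolvent A (z + c) := by
  unfold resolvent
  congr 1
  rw [map_add]
  abel

/-- **powers of an operator with small spectrum** -/
theorem block {E : Set ℂ} {C₀ : ℝ} (hE : Thin E C₀) (Φ : (X →L[ℂ] X) →L[ℂ] F) {A : X →L[ℂ] X}
    {c : ℂ} {r C : ℝ} {k : ℕ} (hr : 0 < r) (hr1 : r ≤ 1) (hC : 1 ≤ C)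
    (hs : ∀ z ∈ spectrum ℂ A, ‖z - c‖ < r / 2)
    (hg : ∀ z ∉ E, ‖z - c‖ < 2 * r → z ∈ resolventSet ℂ A →
      ‖Φ (resolvent A z)‖ ≤ C / infDist z E ^ k) (n : ℕ) :
    ‖Φ ((A - algebraMap ℂ (X →L[ℂ] X) c) ^ n)‖ ≤
      C * Real.exp (k * C₀) / (r / 2) ^ (2 * k) * r ^ (n + 1) := by
  have hres : ∀ w : ℂ, r / 2 ≤ ‖w - c‖ → w ∈ resolventSet ℂ A := by
    intro w hw
    by_contra h
    exact absurd (hs w h) (not_lt.2 hw)
  refine pow_bound Φ hr ?_ ?_ n
  · intro z hz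
    have h1 : z + c ∈ spectrum ℂ A := by
      intro h
      apply hz
      rw [spectrum.mem_resolventSet_iff] at h ⊢
      rw [map_add] at h
      have h2 : algebraMap ℂ (X →L[ℂ] X) z - (A - algebraMap ℂ (X →L[ℂ] X) c) =
          algebraMap ℂ (X →L[ℂ] X) z + algebraMap ℂ (X →L[ℂ] X) c - A := by abel
      rw [h2]
      exact h
    have h2 := hs _ h1
    rw [add_sub_cancel_right] at h2
    linarith
  · intro z hz
    rw [resolvent_shift]
    have hfar : ∀ w ∈ closedBall (z + c) (r / 2), r / 2 ≤ ‖w - c‖ ∧ ‖w - c‖ < 2 * r := by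
      intro w hw
      rw [mem_closedBall, dist_eq_norm] at hw
      have h1 : z = (w - c) - (w - (z + c)) := by ring
      have h2 := norm_sub_le (w - c) (w - (z + c))
      rw [← h1, hz] at h2
      have h3 : w - c = (w - (z + c)) + z := by ring
      have h4 := norm_add_le (w - (z + c)) z
      rw [← h3, hz] at h4
      constructor <;> linarith
    have hdiff : ∀ w ∈ closedBall (z + c) (r / 2),
        DifferentiableAt ℂ (fun w => Φ (resolvent A w)) w := by
      intro w hw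
      have h1 : DifferentiableAt ℂ (resolvent A) w :=
        (spectrum.hasDerivAt_resolvent_const_left (hres w (hfar w hw).1)).differentiableAt
      exact (Φ.differentiableAt).comp w h1
    refine growth_vec hE (f := fun w => Φ (resolvent A w)) (by positivity) (by linarith) ?_ ?_ hC ?_
    · intro w hw
      exact (hdiff w (ball_subset_closedBall hw)).differentiableWithinAt
    · obtain ⟨B, hB⟩ := (isCompact_closedBall (z + c) (r / 2)).exists_bound_of_continuousOn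
        (f := fun w => Φ (resolvent A w)) (fun w hw => (hdiff w hw).continuousAt.continuousWithinAt)
      exact ⟨B, fun y hy => hB y (ball_subset_closedBall hy)⟩
    · intro w hw hwE
      have h1 := hfar w (ball_subset_closedBall hw)
      exact hg w hwE h1.2 (hres w h1.1)

/-- operators with one point in the spectrum -/
theorem block_single {E : Set ℂ} {C₀ : ℝ} (hE : Thin E C₀) (Φ : (X →L[ℂ] X) →L[ℂ] F)
    {A : X →L[ℂ] X} {c : ℂ} {C : ℝ} {k : ℕ} (hC : 1 ≤ C)
    (hs : ∀ z ∈ spectrum ℂ A, z = c)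
    (hg : ∀ z ∉ E, ‖z - c‖ < 1 → z ∈ resolventSet ℂ A →
      ‖Φ (resolvent A z)‖ ≤ C / infDist z E ^ k) :
    Φ ((A - algebraMap ℂ (X →L[ℂ] X) c) ^ (2 * k)) = 0 := by
  have h1 : ∀ r : ℝ, 0 < r → r ≤ 1 / 2 →
      ‖Φ ((A - algebraMap ℂ (X →L[ℂ] X) c) ^ (2 * k))‖ ≤ C * Real.exp (k * C₀) * 4 ^ k * r := by
    intro r hr hr1
    have h2 := block hE Φ (A := A) (c := c) hr (by linarith) hC (fun z hz => by
      rw [hs z hz, sub_self, norm_zero]; positivity) (fun z hz h3 h4 =>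
        hg z hz (by linarith) h4) (2 * k)
    refine h2.trans (le_of_eq ?_)
    have h3 : (4 : ℝ) ^ k = 2 ^ (2 * k) := by rw [pow_mul]; norm_num
    rw [h3, div_pow, pow_succ]
    field_simp
  have h2 : Tendsto (fun r : ℝ => C * Real.exp (k * C₀) * 4 ^ k * r) (𝓝[>] 0) (𝓝 0) := by
    have h3 : Continuous fun r : ℝ => C * Real.exp (k * C₀) * 4 ^ k * r := by fun_prop
    have h4 := h3.tendsto 0
    rw [mul_zero] at h4
    exact h4.mono_left nhdsWithin_le_nhds
  have h3 : ‖Φ ((A - algebraMap ℂ (X →L[ℂ] X) c) ^ (2 * k))‖ ≤ 0 := by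
    refine ge_of_tendsto h2 ?_
    filter_upwards [Ioo_mem_nhdsGT (show (0 : ℝ) < 1 / 2 by norm_num)] with r hr
    exact h1 r hr.1 hr.2.le
  exact norm_le_zero_iff.1 h3

end Pool.Agent.H259.RR
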