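import Pool.Agent.H259.RR.Ess

/-!
# Splitting along generic lines
-/

set_option autoImplicit false
set_option linter.unusedSectionVars false

open MeasureTheory Filter Topology Set Metric
open scoped NNReal ENNReal InnerProductSpace

namespace Pool.Agent.H259.RR

open Pool.Agent.W402.HI Pool.Agent.W706.HIR Pool.Agent.K4H63.RC Pool.Agent.K4H63.RD
open Pool.Agent.W816.HI

section cut

variable {X : Type} [NormedAddCommGroup X] [NormedSpace ℂ X] [CompleteSpace X]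

theorem norm_e {e : ℂ} (he : ‖e‖ = 1) : e ≠ 0 := by
  rintro rfl
  rw [norm_zero] at he
  exact zero_ne_one he

/-- the resolvent of `e A` -/
theorem resolvent_rot {e : ℂ} (he : ‖e‖ = 1) (A : X →L[ℂ] X) (z : ℂ) :
    ‖resolvent (e • A) z‖ = ‖resolvent A (e⁻¹ * z)‖ := by
  have he0 := norm_e he
  let u : ℂˣ := Units.mk0 e he0
  have huT : u • A = e • A := rfl
  have h1 := spectrum.units_smul_resolvent (r := u⁻¹) (s := e⁻¹ * z) (a := A)
  rw [inv_inv, huT] at h1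
  have h2 : (u • (e⁻¹ * z) : ℂ) = z := by
    change e * (e⁻¹ * z) = z
    rw [mul_inv_cancel_left₀ he0]
  rw [h2] at h1
  rw [← h1]
  have h3 : (u⁻¹ • resolvent A (e⁻¹ * z) : X →L[ℂ] X) = e⁻¹ • resolvent A (e⁻¹ * z) := by
    rw [Units.smul_def]
    simp [u]
  rw [h3, norm_smul, norm_inv, he, inv_one, one_mul]

theorem resolventSet_rot {e : ℂ} (he : ‖e‖ = 1) (A : X →L[ℂ] X) {z : ℂ}
    (hz : e⁻¹ * z ∈ resolventSet ℂ A) : z ∈ resolventSet ℂ (e • A) := by
  have he0 := norm_e he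
  rw [spectrum.mem_resolventSet_iff] at hz ⊢
  have h1 : algebraMap ℂ (X →L[ℂ] X) z - e • A =
      algebraMap ℂ (X →L[ℂ] X) e * (algebraMap ℂ (X →L[ℂ] X) (e⁻¹ * z) - A) := by
    rw [mul_sub, ← map_mul, mul_inv_cancel_left₀ he0, ← Algebra.smul_def]
  rw [h1]
  exact ((isUnit_iff_ne_zero.2 he0).map (algebraMap ℂ (X →L[ℂ] X))).mul hz

/-- the cut-off functions -/
theorem cutoffs (A : X →L[ℂ] X) {γ : ℝ → ℂ} {L₀ : ℝ≥0} (hγ : LipschitzWith L₀ γ)
    (hA : ∀ z, z ∉ γ '' Set.Icc 0 1 → z ∈ resolventSet ℂ A)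
    (hAg : ∃ (C : ℝ) (k : ℕ), ∀ z, z ∉ γ '' Set.Icc 0 1 → infDist z (γ '' Set.Icc 0 1) ≤ 1 →
      ‖resolvent A z‖ ≤ C / infDist z (γ '' Set.Icc 0 1) ^ k)
    {e : ℂ} (he : ‖e‖ = 1) {a b : ℝ} (hab : a < b) :
    ∃ c ∈ Set.Ioo a b, ∃ (F₁ F₂ : ℂ → ℂ) (Z : Set ℂ), Dat (e • A) F₁ c ∧ Dat (e • A) F₂ c ∧
      (∀ z ∈ tsupport F₁, z.re < c ∨ z ∈ Z) ∧ (∀ z ∈ tsupport F₂, c < z.re ∨ z ∈ Z) ∧
      (∀ z ∈ Z, z.re = c) ∧
      (∀ p ∈ γ '' Set.Icc 0 1, (e * p).re < c →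
        F₁ (e * p) ≠ 0 ∧ ∀ᶠ z in 𝓝 (e * p), D F₁ z = 0) ∧
      (∀ p ∈ γ '' Set.Icc 0 1, c < (e * p).re →
        F₂ (e * p) ≠ 0 ∧ ∀ᶠ z in 𝓝 (e * p), D F₂ z = 0) := by
  have he0 := norm_e he
  -- growth in cones
  obtain ⟨n, hgrA⟩ : ∃ n : ℕ, ∀ w ∈ γ '' Set.Icc 0 1, ∀ d : ℂ, ‖d‖ = 1 →
      TangentAt (γ '' Set.Icc 0 1) w d → ConeGrowth (fun z => ‖resolvent A z‖) w d n := by
    have hEc : IsCompact (γ '' Set.Icc 0 1) := isCompact_Icc.image hγ.continuous
    have hEne : (γ '' Set.Icc 0 1).Nonempty := ⟨γ 0, 0, by simp, rfl⟩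
    have h0 : ApproxDecay (0 : X →L[ℂ] X) := by
      refine ⟨0, 1, one_pos, fun m hm => ⟨0, ?_, ?_, ?_⟩⟩
      · rw [ContinuousLinearMap.toLinearMap_zero, LinearMap.range_zero]
        infer_instance
      · rw [ContinuousLinearMap.toLinearMap_zero, LinearMap.range_zero, finrank_bot]
        omega
      · simp
    obtain ⟨C', p, hpert⟩ := (Pool.Agent.W991.HI.E5.main X A 0 _ hEc hEne h0).2 hA hAg
    have h1 := Pool.Agent.W706.HIR.e3 X A 0 _ C' p hEc hpert (by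
      rw [add_zero]
      intro z hz
      by_contra h
      exact hz (hA z h))
    rw [add_zero] at h1
    exact h1
  -- the rotated curve
  obtain ⟨γ', hγ'⟩ : ∃ γ' : ℝ → ℂ, γ' = fun t => e * γ t := ⟨_, rfl⟩
  have hL : LipschitzWith L₀ γ' := by
    rw [hγ']
    refine LipschitzWith.of_dist_le_mul fun s t => ?_
    have h1 : dist (e * γ s) (e * γ t) = dist (γ s) (γ t) := by
      rw [dist_eq_norm, dist_eq_norm, ← mul_sub, norm_mul, he, one_mul]
    rw [h1]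
    exact hγ.dist_le_mul s t
  obtain ⟨c, hc, Z, dir, hgl⟩ := mainB1 γ' L₀ hL a b hab
  obtain ⟨E', hE'⟩ : ∃ E' : Set ℂ, E' = γ' '' Set.Icc 0 1 := ⟨_, rfl⟩
  have hmemE' : ∀ z, z ∈ γ '' Set.Icc 0 1 → e * z ∈ E' := by
    rintro z ⟨t, ht, rfl⟩
    rw [hE', hγ']
    exact ⟨t, ht, rfl⟩
  have hmemE : ∀ z, z ∈ E' → e⁻¹ * z ∈ γ '' Set.Icc 0 1 := by
    intro z hz
    rw [hE', hγ'] at hz
    obtain ⟨t, ht, rfl⟩ := hz
    refine ⟨t, ht, ?_⟩
    simp only
    rw [inv_mul_cancel_left₀ he0]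
  rw [← hE'] at hgl
  have hcomp : IsCompact E' := by
    rw [hE']
    exact isCompact_Icc.image hL.continuous
  have hresset : ∀ z, z ∉ E' → z ∈ resolventSet ℂ (e • A) := by
    intro z hz
    refine resolventSet_rot he A (hA _ fun h => hz ?_)
    have := hmemE' _ h
    rwa [mul_inv_cancel_left₀ he0] at this
  have hN0 : ∀ z : ℂ, 0 ≤ ‖resolvent (e • A) z‖ := fun z => norm_nonneg _
  have hNc : ContinuousOn (fun z : ℂ => ‖resolvent (e • A) z‖) E'ᶜ := by
    intro z hz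
    have h1 := (spectrum.hasDerivAt_resolvent_const_left (hresset z hz)).continuousAt
    exact (h1.norm).continuousWithinAt
  have hcg : ∀ w ∈ Z, ConeGrowth (fun z : ℂ => ‖resolvent (e • A) z‖) w (dir w) n := by
    intro w hw
    have hwE : w ∈ E' := ((hgl.1 w).1 hw).1
    obtain ⟨hd1, -, htan⟩ := hgl.2 w hw
    rw [hE', hγ'] at htan
    have ht := Pool.Agent.W287.HI.C3.tangent_rot he htan
    have h1 := hgrA (e⁻¹ * w) (hmemE w hwE) (e⁻¹ * dir w)
      (by rw [norm_mul, norm_inv, he, inv_one, one_mul, hd1]) ht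
    exact Pool.Agent.W287.HI.C3.cone_rot he (N := fun z => ‖resolvent A z‖)
      (resolvent_rot he A) h1
  obtain ⟨F₁, hF1, hs1, hD1, hM1, hp1⟩ :=
    Pool.Agent.W402.HI.C1.main E' hcomp c Z dir hgl _ n hN0 hNc hcg
  obtain ⟨F₂, hF2, hs2, hD2, hM2, hp2⟩ :=
    Pool.Agent.W613.HI.main Pool.Agent.W402.HI.C1.main E' hcomp c Z dir hgl _ n hN0 hNc hcg
  exact ⟨c, hc, F₁, F₂, (Z : Set ℂ), ⟨hF1, fun z hz => hresset z (hD1 z hz), hM1⟩,
    ⟨hF2, fun z hz => hresset z (hD2 z hz), hM2⟩, hs1, hs2,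
    fun z hz => ((hgl.1 z).1 hz).2, fun p hp h => hp1 _ (hmemE' p hp) h,
    fun p hp h => hp2 _ (hmemE' p hp) h⟩

end cut

section spin

variable {H : Type} [NormedAddCommGroup H] [InnerProductSpace ℂ H] [CompleteSpace H]

/-- the spectrum of `A` on `U` is in `K` -/
def SpIn (T A : H →L[ℂ] H) (U : Submodule ℂ H) (K : Set ℂ) : Prop :=
  ∀ z ∉ K, ∃ R : H →L[ℂ] H, Cent T R ∧ ∀ x ∈ U, z • R x - A (R x) = x

variable {T A : H →L[ℂ] H}

theorem SpIn.mono {U V : Submodule ℂ H} {K K' : Set ℂ} (h : SpIn T A V K) (hU : U ≤ V)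
    (hK : K ⊆ K') : SpIn T A U K' := fun z hz => by
  obtain ⟨R, h1, h2⟩ := h z (fun h' => hz (hK h'))
  exact ⟨R, h1, fun x hx => h2 x (hU hx)⟩

theorem SpIn.inter {U : Submodule ℂ H} {K K' : Set ℂ} (h : SpIn T A U K) (h' : SpIn T A U K') :
    SpIn T A U (K ∩ K') := fun z hz => by
  by_cases hzK : z ∈ K
  · exact h' z (fun hh => hz ⟨hzK, hh⟩)
  · exact h z hzK

theorem cent_comm {R : H →L[ℂ] H} (hA : Cent T A) (hR : Cent T R) : A * R = R * A := by
  have h1 : T * A = A * T := hA T rfl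
  exact hR A h1.symm

theorem SpIn.spec {U : Submodule ℂ H} [CompleteSpace U] {K : Set ℂ} (hred : Reductive T)
    (hA : Cent T A) (hU : Hyper T U) (hAU : ∀ x ∈ U, A x ∈ U) (h : SpIn T A U K) :
    spectrum ℂ (A.restrict hAU) ⊆ K := by
  intro z hz
  by_contra hzK
  apply hz
  obtain ⟨R, h1, h2⟩ := h z hzK
  have hRU : ∀ x ∈ U, R x ∈ U := h1.map hred hU
  have hcomm : ∀ x, A (R x) = R (A x) := fun x => by
    have := congrArg (fun L : H →L[ℂ] H => L x) (cent_comm hA h1)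
    simpa only [mul_apply_eq_comp] using this
  rw [spectrum.mem_resolventSet_iff]
  refine ⟨⟨_, R.restrict hRU, ?_, ?_⟩, rfl⟩
  · ext x
    change z • R x - A (R x) = (x : H)
    exact h2 x x.2
  · ext x
    change R (z • (x : H) - A x) = (x : H)
    rw [map_sub, map_smul, ← hcomm]
    exact h2 x x.2

/-- the projections on hyperinvariant subspaces are in the bicommutant -/
theorem cent_proj (hred : Reductive T) {U : Submodule ℂ H} [CompleteSpace U] (hU : Hyper T U) :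
    Cent T U.starProjection := by
  intro Q hQ
  refine (proj_comm (hU.2 Q hQ) ?_).symm
  intro x hx
  have hUo := hyper_orth hred hU
  have h1 : ContinuousLinearMap.adjoint Q x ∈ Uᗮᗮ := by
    rw [Submodule.mem_orthogonal]
    intro u hu
    rw [ContinuousLinearMap.adjoint_inner_right]
    exact (Submodule.mem_orthogonal' _ _).1 (hUo.2 Q hQ u hu) x hx
  rwa [Submodule.orthogonal_orthogonal] at h1

theorem SpIn.of_spec {U : Submodule ℂ H} [CompleteSpace U] {K : Set ℂ} (hred : Reductive T)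
    (hA : Cent T A) (hU : Hyper T U) (hAU : ∀ x ∈ U, A x ∈ U)
    (h : spectrum ℂ (A.restrict hAU) ⊆ K) : SpIn T A U K := by
  intro z hz
  have hzr : z ∈ resolventSet ℂ (A.restrict hAU) := by
    by_contra h'
    exact hz (h h')
  obtain ⟨r1, r2⟩ := res_apply hzr
  refine ⟨U.subtypeL.comp ((resolvent (A.restrict hAU) z).comp U.orthogonalProjection), ?_, ?_⟩
  · intro Q hQ
    have hQU := hU.2 Q hQ
    have hQA : ∀ x, Q (A x) = A (Q x) := fun x => by
      have := congrArg (fun L : H →L[ℂ] H => L x) (hA Q hQ)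
      simpa only [mul_apply_eq_comp] using this
    have h1 : Q.restrict hQU * A.restrict hAU = A.restrict hAU * Q.restrict hQU := by
      ext x
      exact hQA x
    have h2 := res_comm (A := U →L[ℂ] U) h1 z
    ext x
    have h3 := congrArg (fun L : H →L[ℂ] H => L x) (cent_proj hred hU Q hQ)
    simp only [mul_apply_eq_comp] at h3
    have h4 : U.orthogonalProjection (Q x) = Q.restrict hQU (U.orthogonalProjection x) := by
      apply Subtype.ext
      exact h3.symm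
    change Q ((resolvent (A.restrict hAU) z (U.orthogonalProjection x) : U) : H) =
      ((resolvent (A.restrict hAU) z (U.orthogonalProjection (Q x)) : U) : H)
    rw [h4]
    have h5 := congrArg (fun L : U →L[ℂ] U => ((L (U.orthogonalProjection x) : U) : H)) h2
    simp only [mul_apply_eq_comp] at h5
    exact h5
  · intro x hx
    have h6 : U.orthogonalProjection x = ⟨x, hx⟩ :=
      Submodule.orthogonalProjection_mem_subspace_eq_self (⟨x, hx⟩ : U)
    have h7 := congrArg (fun y : U => (y : H)) (r1 ⟨x, hx⟩)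
    change z • ((resolvent (A.restrict hAU) z (U.orthogonalProjection x) : U) : H) -
      A ((resolvent (A.restrict hAU) z (U.orthogonalProjection x) : U) : H) = x
    rw [h6]
    exact h7

/-- vanishing integrals and the spectrum -/
theorem vanish {B : H →L[ℂ] H} {V : Submodule ℂ H} [CompleteSpace V] (hBV : ∀ x ∈ V, B x ∈ V)
    (hBVo : ∀ x ∈ Vᗮ, B x ∈ Vᗮ) {F : ℂ → ℂ} {c : ℝ} (h : Dat B F c)
    (h0 : ∀ x ∈ V, (∫ z, Gf B F z) x = 0) {μ : ℂ} (hμ : μ ∈ spectrum ℂ (B.restrict hBV)) :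
    ¬ (F μ ≠ 0 ∧ ∀ᶠ z in 𝓝 μ, D F z = 0) := by
  intro hF
  have hrr : ∀ z, z ∈ resolventSet ℂ B → z ∈ resolventSet ℂ (B.restrict hBV) ∧
      ‖resolvent (B.restrict hBV) z‖ ≤ ‖resolvent B z‖ := fun z hz =>
    Pool.Agent.W610.HY.Reduct.res_restrict hBV (fun x _ => rfl) hBVo hz
  have hdat : Dat (B.restrict hBV) F c := by
    refine ⟨h.tst, fun z hz => (hrr z (h.res z hz)).1, ?_⟩
    obtain ⟨M, hM⟩ := h.bd
    refine ⟨|M|, fun z => ?_⟩
    by_cases hz : D F z = 0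
    · rw [hz, norm_zero, zero_mul]; positivity
    · have h1 := (hrr z (h.res z hz)).2
      calc ‖D F z‖ * (1 + ‖resolvent (B.restrict hBV) z‖) ≤ ‖D F z‖ * (1 + ‖resolvent B z‖) := by
            gcongr
        _ ≤ M * |z.re - c| := hM z
        _ ≤ |M| * |z.re - c| := by
            gcongr
            exact le_abs_self M
  refine AI_ne (Pool.Agent.W261.HI.A3.main mainA1) hdat ⟨μ, hμ, hF⟩ ?_
  let Λ : (H →L[ℂ] H) →L[ℂ] (V →L[ℂ] V) :=
    (ContinuousLinearMap.compL ℂ V H V V.orthogonalProjection).comp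
      ((ContinuousLinearMap.compL ℂ V H H).flip V.subtypeL)
  have hΛ : ∀ (Q : H →L[ℂ] H) (x : V), Λ Q x = V.orthogonalProjection (Q x) := fun Q x => rfl
  have h1 : ∀ z, Gf (B.restrict hBV) F z = Λ (Gf B F z) := by
    intro z
    by_cases hz : D F z = 0
    · rw [Gf_zero hz, Gf_zero hz, map_zero]
    · have hzB := h.res z hz
      obtain ⟨b1, b2⟩ := res_apply hzB
      obtain ⟨v1, v2⟩ := res_apply (hrr z hzB).1
      unfold Gf
      rw [map_smul]
      congr 1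
      ext x
      rw [hΛ]
      have h2 := congrArg (fun y : V => (y : H)) (v1 x)
      have h3 : z • ((resolvent (B.restrict hBV) z x : V) : H) -
          B ((resolvent (B.restrict hBV) z x : V) : H) = (x : H) := h2
      have h4 := b2 ((resolvent (B.restrict hBV) z x : V) : H)
      rw [h3] at h4
      rw [h4]
      congr 1
      exact (Submodule.orthogonalProjection_mem_subspace_eq_self _).symm
  simp_rw [h1]
  refine (ContinuousLinearMap.integral_comp_comm (𝕜 := ℂ) (E := H →L[ℂ] H) (Fₗ := V →L[ℂ] V) Λ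
    (int_Gf h)).trans ?_
  ext x
  rw [hΛ, h0 x x.2, map_zero]
  rfl

/-- **splitting** -/
theorem split (hred : Reductive T) (hA : Cent T A) {γ : ℝ → ℂ} {L₀ : ℝ≥0}
    (hγ : LipschitzWith L₀ γ) (hAs : ∀ z, z ∉ γ '' Set.Icc 0 1 → z ∈ resolventSet ℂ A)
    (hAg : ∃ (C : ℝ) (k : ℕ), ∀ z, z ∉ γ '' Set.Icc 0 1 → infDist z (γ '' Set.Icc 0 1) ≤ 1 →
      ‖resolvent A z‖ ≤ C / infDist z (γ '' Set.Icc 0 1) ^ k)
    {e : ℂ} (he : ‖e‖ = 1) {a b : ℝ} (hab : a < b) :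
    ∃ c ∈ Set.Ioo a b, ∃ W : Submodule ℂ H, Hyper T W ∧ SpIn T A W {z | c ≤ (e * z).re} ∧
      SpIn T A Wᗮ {z | (e * z).re ≤ c} := by
  have he0 := norm_e he
  obtain ⟨c, hc, F₁, F₂, Z, d1, d2, s1, s2, hZ, p1, p2⟩ := cutoffs A hγ hAs hAg he hab
  set B : H →L[ℂ] H := e • A with hB
  have hBc : Cent T B := hA.smul e
  set A1 : H →L[ℂ] H := ∫ z, Gf B F₁ z with hA1
  set A2 : H →L[ℂ] H := ∫ z, Gf B F₂ z with hA2
  have hm : A1 * A2 = 0 := AI_mul mainA2 d1 d2 s1 s2 hZ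
  have hc1 : Cent T A1 := fun Q hQ => AI_comm (hBc Q hQ) d1
  have hc2 : Cent T A2 := fun Q hQ => AI_comm (hBc Q hQ) d2
  set W : Submodule ℂ H := LinearMap.ker (A1 : H →ₗ[ℂ] H) with hW
  have hWH : Hyper T W := hc1.ker
  have hWo : Hyper T Wᗮ := hyper_orth hred hWH
  have hWcs : CompleteSpace W := hWH.1.completeSpace_coe
  have hWocs : CompleteSpace Wᗮ := hWo.1.completeSpace_coe
  have hmemW : ∀ x, x ∈ W ↔ A1 x = 0 := fun x => by rw [hW, LinearMap.mem_ker]; rfl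
  have hA2o : ∀ x ∈ Wᗮ, A2 x = 0 := by
    intro x hx
    have h1 : A2 x ∈ Wᗮ := hc2.map hred hWo x hx
    have h2 : A2 x ∈ W := by
      rw [hmemW]
      have := congrArg (fun L : H →L[ℂ] H => L x) hm
      simpa only [mul_apply_eq_comp, zero_apply] using this
    have h3 : ⟪A2 x, A2 x⟫_ℂ = 0 := (Submodule.mem_orthogonal _ _).1 h1 _ h2
    exact inner_self_eq_zero.1 h3
  have hBW : ∀ x ∈ W, B x ∈ W := hBc.map hred hWH
  have hBWo : ∀ x ∈ Wᗮ, B x ∈ Wᗮ := hBc.map hred hWo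
  have hWoo : Wᗮᗮ = W := Submodule.orthogonal_orthogonal W
  have hBWoo : ∀ x ∈ Wᗮᗮ, B x ∈ Wᗮᗮ := by rw [hWoo]; exact hBW
  -- points of the spectrum of the parts are on the rotated curve
  have hcurve : ∀ (V : Submodule ℂ H) [CompleteSpace V] (h1 : ∀ x ∈ V, B x ∈ V)
      (h2 : ∀ x ∈ Vᗮ, B x ∈ Vᗮ), ∀ μ ∈ spectrum ℂ (B.restrict h1),
      e⁻¹ * μ ∈ γ '' Set.Icc 0 1 := by
    intro V _ h1 h2 μ hμ
    by_contra hcon
    apply hμ
    have h3 : μ ∈ resolventSet ℂ B := resolventSet_rot he A (hAs _ hcon)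
    exact (Pool.Agent.W610.HY.Reduct.res_restrict h1 (fun x _ => rfl) h2 h3).1
  -- back to `A`
  have hback : ∀ (V : Submodule ℂ H) (K : Set ℂ), SpIn T B V K →
      SpIn T A V {z | e * z ∈ K} := by
    intro V K h z hz
    obtain ⟨R, h1, h2⟩ := h (e * z) hz
    refine ⟨e • R, h1.smul e, fun x hx => ?_⟩
    have h3 := h2 x hx
    change z • e • R x - A (e • R x) = x
    rw [map_smul, smul_smul, mul_comm z e]
    exact h3
  refine ⟨c, hc, W, hWH, hback W {z | c ≤ z.re} ?_, hback Wᗮ {z | z.re ≤ c} ?_⟩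
  · refine SpIn.of_spec hred hBc hWH hBW ?_
    intro μ hμ
    by_contra hcon
    simp only [Set.mem_setOf_eq, not_le] at hcon
    have h1 := hcurve W hBW hBWo μ hμ
    have h2 := p1 _ h1
    rw [mul_inv_cancel_left₀ he0] at h2
    exact vanish hBW hBWo d1 (fun x hx => (hmemW x).1 hx) hμ (h2 hcon)
  · refine SpIn.of_spec hred hBc hWo hBWo ?_
    intro μ hμ
    by_contra hcon
    simp only [Set.mem_setOf_eq, not_le] at hcon
    have h1 := hcurve Wᗮ hBWo hBWoo μ hμ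
    have h2 := p2 _ h1
    rw [mul_inv_cancel_left₀ he0] at h2
    exact vanish hBWo hBWoo d2 hA2o hμ (h2 hcon)

end spin

end Pool.Agent.H259.RR
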